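import Pool.Agent.W358.ME.EK0

set_option autoImplicit false

/-! # Base change for the equivariant Grothendieck rings -/

namespace Pool.Agent.K6.H7.UE

open MvPolynomial Pool.Agent.W428.MOT
open Pool.Agent.W358.ME.EK0 (mk_eq_of_rel mk_iso mk_affine mk_aff)

variable {k : Type} [Field k]

section pts

variable {a b : ℕ}

/-- the left part -/
def lf (w : Pt k (Fin (a + b))) : Pt k (Fin a) := fun i => w (Fin.castAdd b i)

/-- the right part -/
def rg (w : Pt k (Fin (a + b))) : Pt k (Fin b) := fun i => w (Fin.natAdd a i)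

/-- both parts -/
def jn (v : Pt k (Fin a)) (x : Pt k (Fin b)) : Pt k (Fin (a + b)) := Fin.append v x

@[simp] theorem lf_jn (v : Pt k (Fin a)) (x : Pt k (Fin b)) : lf (jn v x) = v := by
  funext i
  simp [lf, jn]

@[simp] theorem rg_jn (v : Pt k (Fin a)) (x : Pt k (Fin b)) : rg (jn v x) = x := by
  funext i
  simp [rg, jn]

@[simp] theorem jn_lf_rg (w : Pt k (Fin (a + b))) : jn (lf w) (rg w) = w := by
  funext i
  refine Fin.addCases (fun i => ?_) (fun i => ?_) i
  · simp [lf, jn]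
  · simp [rg, jn]

theorem jn_left (v : Pt k (Fin a)) (x : Pt k (Fin b)) (i : Fin a) :
    jn v x (Fin.castAdd b i) = v i := by simp [jn]

theorem jn_right (v : Pt k (Fin a)) (x : Pt k (Fin b)) (i : Fin b) :
    jn v x (Fin.natAdd a i) = x i := by simp [jn]

theorem isRF_comp {ι κ : Type} {S : Set (Pt k ι)} {T : Set (Pt k κ)}
    {F : Pt k κ → AlgebraicClosure k} (hF : IsRF T F) (φ : Pt k ι → Pt k κ)
    (hφ : ∀ i, IsPF (fun z => φ z i)) (h : ∀ z ∈ S, φ z ∈ T) : IsRF S (fun z => F (φ z)) := by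
  obtain ⟨P, Q, hPQ⟩ := hF
  choose R hR using hφ
  have e : ∀ z, φ z = fun i => aeval z (R i) := fun z => funext fun i => hR i z
  refine ⟨bind₁ R P, bind₁ R Q, fun z hz => ?_⟩
  rw [aeval_bind₁, aeval_bind₁, ← e z]
  exact hPQ _ (h z hz)

theorem regular_comp {ι κ τ : Type} {S : Set (Pt k ι)} {T : Set (Pt k κ)}
    {F : Pt k κ → Pt k τ} (hF : RegularOn T F) (φ : Pt k ι → Pt k κ)
    (hφ : ∀ i, IsPF (fun z => φ z i)) (h : ∀ z ∈ S, φ z ∈ T) : RegularOn S (fun z => F (φ z)) :=
  fun i => isRF_comp (F := fun z => F z i) (hF i) φ hφ h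

theorem regular_jn {ι : Type} {S : Set (Pt k ι)} {F : Pt k ι → Pt k (Fin a)}
    {G : Pt k ι → Pt k (Fin b)} (hF : RegularOn S F) (hG : RegularOn S G) :
    RegularOn S (fun z => jn (F z) (G z)) := by
  intro i
  refine Fin.addCases (fun i => ?_) (fun i => ?_) i
  · simp only [jn_left]
    exact hF i
  · simp only [jn_right]
    exact hG i

end pts

variable {n m : ℕ} (θ : MvPolynomial (Fin m) k →ₐ[k] MvPolynomial (Fin n) k)

/-- the map of the points -/
noncomputable def tp (x : Pt k (Fin n)) : Pt k (Fin m) := fun j => aeval x (θ (X j))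

theorem isPF_tp {ι : Type} (φ : Pt k ι → Pt k (Fin n)) (hφ : ∀ i, IsPF (fun z => φ z i)) (j : Fin m) :
    IsPF (fun z => tp θ (φ z) j) := (IsPF.poly (θ (X j))).comp φ hφ

theorem aeval_tp (x : Pt k (Fin n)) (g : MvPolynomial (Fin m) k) :
    aeval (tp θ x) g = aeval x (θ g) := by
  have h : (aeval (tp θ x) : MvPolynomial (Fin m) k →ₐ[k] AlgebraicClosure k) =
      (aeval x).comp θ := by
    apply MvPolynomial.algHom_ext
    intro i
    rw [aeval_X]
    rfl
  rw [h]
  rfl

variable {θ} {g : MvPolynomial (Fin m) k} {f : MvPolynomial (Fin n) k}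

/-- The set of the fibre product of `V` and `X_s(f)` over `X_s(g)`. -/
def pullS (θ : MvPolynomial (Fin m) k →ₐ[k] MvPolynomial (Fin n) k) (f : MvPolynomial (Fin n) k)
    (V : MuVar g) : Set (Pt k (Fin (V.N + n))) :=
  {w | lf w ∈ V.S ∧ aeval (rg w) f = 0 ∧ V.π (lf w) = tp θ (rg w)}

theorem constr_pullS (V : MuVar g) : Constr (pullS θ f V) := by
  choose P Q hPQ using V.regular_π
  have h1 : pullS θ f V = {w | lf w ∈ V.S ∧ (aeval (rg w) f = 0 ∧
      ∀ i, aeval (lf w) (P i) = tp θ (rg w) i * aeval (lf w) (Q i))} := by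
    ext w
    simp only [pullS, Set.mem_ofPred_eq]
    refine and_congr_right fun hw => and_congr_right fun _ => ?_
    rw [funext_iff]
    refine forall_congr' fun i => ?_
    obtain ⟨h1, h2⟩ := hPQ i _ hw
    rw [h2, div_eq_iff h1]
  rw [h1]
  refine Constr.and (V.constr.preimage _ fun i => IsPF.coord _) (Constr.and ?_ ?_)
  · exact (Constr.zero f).preimage (fun w => rg w) fun i => IsPF.coord _
  · refine Constr.all fun i => Constr.eq ?_ (IsPF.mul ?_ ?_)
    · exact (IsPF.poly (P i)).comp (fun w => lf w) fun i => IsPF.coord _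
    · exact isPF_tp θ (fun w => rg w) (fun i => IsPF.coord _) i
    · exact (IsPF.poly (Q i)).comp (fun w => lf w) fun i => IsPF.coord _

/-- The fibre product of `V` and `X_s(f)` over `X_s(g)`, for `θ g = f`. -/
abbrev pull (θ : MvPolynomial (Fin m) k →ₐ[k] MvPolynomial (Fin n) k) (f : MvPolynomial (Fin n) k)
    (V : MuVar g) : MuVar f where
  N := V.N + n
  S := pullS θ f V
  constr := constr_pullS V
  π := rg
  regular_π := regularOn_poly (fun i => IsPF.coord _) _
  π_mem := fun z hz => hz.2.1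
  d := V.d
  d_pos := V.d_pos
  act := fun ζ w => jn (V.act ζ (lf w)) (rg w)
  regular_act := by
    refine regular_jn ?_ (regularOn_poly (fun i => IsPF.coord _) _)
    refine regular_comp V.regular_act (fun (w : Pt k (Option (Fin (V.N + n)))) (o : Option (Fin V.N)) =>
      w (o.map (Fin.castAdd n))) (fun o => IsPF.coord _) ?_
    rintro w ⟨h1, h2⟩
    exact ⟨h1, h2.1⟩
  act_mem := fun ζ h z hz => by
    refine ⟨?_, ?_, ?_⟩
    · rw [lf_jn]
      exact V.act_mem ζ h _ hz.1
    · rw [rg_jn]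
      exact hz.2.1
    · rw [lf_jn, rg_jn, V.π_act ζ h _ hz.1]
      exact hz.2.2
  act_one := fun z hz => by rw [V.act_one _ hz.1, jn_lf_rg]
  act_mul := fun ζ ζ' h h' z hz => by rw [V.act_mul ζ ζ' h h' _ hz.1, lf_jn, rg_jn]
  π_act := fun ζ _ z _ => rg_jn _ _

theorem pull_iso {V W : MuVar g} {φ : Pt k (Fin V.N) → Pt k (Fin W.N)}
    {ψ : Pt k (Fin W.N) → Pt k (Fin V.N)} (h : IsMuIso V W φ ψ) :
    IsMuIso (pull θ f V) (pull θ f W) (fun w => jn (φ (lf w)) (rg w))
      (fun w => jn (ψ (lf w)) (rg w)) where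
  regular := regular_jn (regular_comp h.regular (fun w => lf w) (fun i => IsPF.coord _)
    fun w hw => hw.1) (regularOn_poly (fun i => IsPF.coord _) _)
  regular' := regular_jn (regular_comp h.regular' (fun w => lf w) (fun i => IsPF.coord _)
    fun w hw => hw.1) (regularOn_poly (fun i => IsPF.coord _) _)
  mapsTo := fun z hz => by
    refine ⟨?_, ?_, ?_⟩
    · rw [lf_jn]
      exact h.mapsTo hz.1
    · rw [rg_jn]
      exact hz.2.1
    · rw [lf_jn, rg_jn, h.overBase _ hz.1]
      exact hz.2.2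
  mapsTo' := fun z hz => by
    refine ⟨?_, ?_, ?_⟩
    · rw [lf_jn]
      exact h.mapsTo' hz.1
    · rw [rg_jn]
      exact hz.2.1
    · rw [lf_jn, rg_jn, ← h.overBase _ (h.mapsTo' hz.1), h.right_inv _ hz.1]
      exact hz.2.2
  left_inv := fun z hz => by rw [lf_jn, rg_jn, h.left_inv _ hz.1, jn_lf_rg]
  right_inv := fun z hz => by rw [lf_jn, rg_jn, h.right_inv _ hz.1, jn_lf_rg]
  overBase := fun z _ => rg_jn _ _
  equivariant := fun l hl z hz => by
    change jn (φ (lf (jn (V.act (l ^ W.d) (lf z)) (rg z)))) (rg (jn (V.act (l ^ W.d) (lf z)) (rg z)))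
      = jn (W.act (l ^ V.d) (lf (jn (φ (lf z)) (rg z)))) (rg (jn (φ (lf z)) (rg z)))
    rw [lf_jn, rg_jn, lf_jn, rg_jn, h.equivariant l hl _ hz.1]

/-- identity maps -/
theorem isMuIso_id {V W : MuVar f} (hN : V.N = W.N) (hS : HEq V.S W.S) (hπ : HEq V.π W.π)
    (hd : V.d = W.d) (ha : HEq V.act W.act) : K0Mu.mk V = K0Mu.mk W := by
  cases V
  cases W
  simp only at hN
  subst hN
  simp only [heq_eq_eq] at hS hπ hd ha
  subst hS hπ hd ha
  rfl

theorem pull_prod {V W P : MuVar g} {p : Pt k (Fin P.N) → Pt k (Fin V.N)}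
    {q : Pt k (Fin P.N) → Pt k (Fin W.N)} {j : Pt k (Fin V.N ⊕ Fin W.N) → Pt k (Fin P.N)}
    (h : IsFibreProd V W P p q j) :
    IsFibreProd (pull θ f V) (pull θ f W) (pull θ f P) (fun w => jn (p (lf w)) (rg w))
      (fun w => jn (q (lf w)) (rg w))
      (fun w => jn (j fun s => w (Sum.map (Fin.castAdd n) (Fin.castAdd n) s))
        (fun i => w (Sum.inl (Fin.natAdd V.N i)))) where
  regular_p := regular_jn (regular_comp h.regular_p (fun w => lf w) (fun i => IsPF.coord _)
    fun w hw => hw.1) (regularOn_poly (fun i => IsPF.coord _) _)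
  regular_q := regular_jn (regular_comp h.regular_q (fun w => lf w) (fun i => IsPF.coord _)
    fun w hw => hw.1) (regularOn_poly (fun i => IsPF.coord _) _)
  regular_j := by
    refine regular_jn (regular_comp h.regular_j (fun (w : Pt k (Fin (V.N + n) ⊕ Fin (W.N + n))) s =>
      w (Sum.map (Fin.castAdd n) (Fin.castAdd n) s)) (fun i => IsPF.coord _) ?_)
      (regularOn_poly (fun i => IsPF.coord _) _)
    rintro w ⟨⟨h1, h2, h3⟩, ⟨h4, h5, h6⟩, h7⟩
    have h7' : rg (a := V.N) (b := n) (fun i => w (Sum.inl i)) =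
      rg (a := W.N) (b := n) (fun i => w (Sum.inr i)) := h7
    exact ⟨h1, h4, h3.trans ((congrArg (tp θ) h7').trans h6.symm)⟩
  mapsTo := fun z hz => by
    obtain ⟨h1, h2, h3, h4⟩ := h.mapsTo _ hz.1
    refine ⟨⟨?_, ?_, ?_⟩, ⟨?_, ?_, ?_⟩, ?_, ?_⟩
    · rw [lf_jn]
      exact h1
    · rw [rg_jn]
      exact hz.2.1
    · rw [lf_jn, rg_jn, h4]
      exact hz.2.2
    · rw [lf_jn]
      exact h2
    · rw [rg_jn]
      exact hz.2.1
    · rw [lf_jn, rg_jn, ← h3, h4]
      exact hz.2.2
    · exact (rg_jn _ _).trans (rg_jn _ _).symm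
    · exact rg_jn _ _
  mapsTo' := fun v hv w hw hvw => by
    change rg v = rg w at hvw
    have e1 : (fun s => Sum.elim v w (Sum.map (Fin.castAdd n) (Fin.castAdd n) s)) =
        Sum.elim (lf v) (lf w) := by
      funext s
      cases s <;> rfl
    have e2 : (fun i => (Sum.elim v w : Pt k (Fin (V.N + n) ⊕ Fin (W.N + n)))
        (Sum.inl (Fin.natAdd V.N i))) = rg v := rfl
    obtain ⟨h1, h2, h3⟩ := h.mapsTo' _ hv.1 _ hw.1 (by rw [hv.2.2, hw.2.2, hvw])
    have h4 := (h.mapsTo _ h1).2.2.2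
    rw [h2] at h4
    simp only [e1, e2]
    refine ⟨⟨?_, ?_, ?_⟩, ?_, ?_⟩
    · rw [lf_jn]
      exact h1
    · rw [rg_jn]
      exact hv.2.1
    · rw [lf_jn, rg_jn, ← h4]
      exact hv.2.2
    · rw [lf_jn, rg_jn, h2, jn_lf_rg]
    · rw [lf_jn, rg_jn, h3, hvw, jn_lf_rg]
  inj := fun z hz => by
    have e1 : (fun s => (Sum.elim (jn (p (lf z)) (rg z)) (jn (q (lf z)) (rg z)) :
        Pt k (Fin (V.N + n) ⊕ Fin (W.N + n))) (Sum.map (Fin.castAdd n) (Fin.castAdd n) s)) =
        Sum.elim (p (lf z)) (q (lf z)) := by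
      funext s
      cases s
      · exact jn_left _ _ _
      · exact jn_left _ _ _
    have e2 : (fun i => (Sum.elim (jn (p (lf z)) (rg z)) (jn (q (lf z)) (rg z)) :
        Pt k (Fin (V.N + n) ⊕ Fin (W.N + n))) (Sum.inl (Fin.natAdd V.N i))) = rg z := by
      funext i
      exact jn_right _ _ _
    simp only [e1, e2]
    rw [h.inj _ hz.1, jn_lf_rg]
  equivariant_p := fun l hl z hz => by
    change jn (p (lf (jn (P.act (l ^ V.d) (lf z)) (rg z)))) (rg (jn (P.act (l ^ V.d) (lf z)) (rg z)))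
      = jn (V.act (l ^ P.d) (lf (jn (p (lf z)) (rg z)))) (rg (jn (p (lf z)) (rg z)))
    rw [lf_jn, rg_jn, lf_jn, rg_jn, h.equivariant_p l hl _ hz.1]
  equivariant_q := fun l hl z hz => by
    change jn (q (lf (jn (P.act (l ^ W.d) (lf z)) (rg z)))) (rg (jn (P.act (l ^ W.d) (lf z)) (rg z)))
      = jn (W.act (l ^ P.d) (lf (jn (q (lf z)) (rg z)))) (rg (jn (q (lf z)) (rg z)))
    rw [lf_jn, rg_jn, lf_jn, rg_jn, h.equivariant_q l hl _ hz.1]

theorem pull_affine {V P : MuVar g} {r : ℕ} {p : Pt k (Fin P.N) → Pt k (Fin V.N)}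
    {q : Pt k (Fin P.N) → Pt k (Fin r)} {j : Pt k (Fin V.N ⊕ Fin r) → Pt k (Fin P.N)}
    (h : IsAffineLift V P r p q j) :
    IsAffineLift (pull θ f V) (pull θ f P) r (fun w => jn (p (lf w)) (rg w))
      (fun w => q (lf w))
      (fun w => jn (j fun s => w (Sum.map (Fin.castAdd n) id s))
        (fun i => w (Sum.inl (Fin.natAdd V.N i)))) where
  regular_p := regular_jn (regular_comp h.regular_p (fun w => lf w) (fun i => IsPF.coord _)
    fun w hw => hw.1) (regularOn_poly (fun i => IsPF.coord _) _)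
  regular_q := regular_comp h.regular_q (fun w => lf w) (fun i => IsPF.coord _) fun w hw => hw.1
  regular_j := by
    refine regular_jn (regular_comp h.regular_j (fun (w : Pt k (Fin (V.N + n) ⊕ Fin r)) s =>
      w (Sum.map (Fin.castAdd n) id s)) (fun i => IsPF.coord _) ?_)
      (regularOn_poly (fun i => IsPF.coord _) _)
    intro w hw
    exact hw.1
  mapsTo := fun z hz => by
    obtain ⟨h1, h4⟩ := h.mapsTo _ hz.1
    refine ⟨⟨?_, ?_, ?_⟩, ?_⟩
    · rw [lf_jn]
      exact h1
    · rw [rg_jn]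
      exact hz.2.1
    · rw [lf_jn, rg_jn, h4]
      exact hz.2.2
    · exact rg_jn _ _
  mapsTo' := fun v hv w => by
    have e1 : (fun s => Sum.elim v w (Sum.map (Fin.castAdd n) id s)) =
        Sum.elim (lf v) w := by
      funext s
      cases s <;> rfl
    have e2 : (fun i => (Sum.elim v w : Pt k (Fin (V.N + n) ⊕ Fin r))
        (Sum.inl (Fin.natAdd V.N i))) = rg v := rfl
    obtain ⟨h1, h2, h3⟩ := h.mapsTo' _ hv.1 w
    have h4 := (h.mapsTo _ h1).2
    rw [h2] at h4
    simp only [e1, e2]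
    refine ⟨⟨?_, ?_, ?_⟩, ?_, ?_⟩
    · rw [lf_jn]
      exact h1
    · rw [rg_jn]
      exact hv.2.1
    · rw [lf_jn, rg_jn, ← h4]
      exact hv.2.2
    · rw [lf_jn, rg_jn, h2, jn_lf_rg]
    · rw [lf_jn, h3]
  inj := fun z hz => by
    have e1 : (fun s => (Sum.elim (jn (p (lf z)) (rg z)) (q (lf z)) :
        Pt k (Fin (V.N + n) ⊕ Fin r)) (Sum.map (Fin.castAdd n) id s)) =
        Sum.elim (p (lf z)) (q (lf z)) := by
      funext s
      cases s
      · exact jn_left _ _ _
      · rfl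
    have e2 : (fun i => (Sum.elim (jn (p (lf z)) (rg z)) (q (lf z)) :
        Pt k (Fin (V.N + n) ⊕ Fin r)) (Sum.inl (Fin.natAdd V.N i))) = rg z := by
      funext i
      exact jn_right _ _ _
    simp only [e1, e2]
    rw [h.inj _ hz.1, jn_lf_rg]
  equivariant_p := fun l hl z hz => by
    change jn (p (lf (jn (P.act (l ^ V.d) (lf z)) (rg z)))) (rg (jn (P.act (l ^ V.d) (lf z)) (rg z)))
      = jn (V.act (l ^ P.d) (lf (jn (p (lf z)) (rg z)))) (rg (jn (p (lf z)) (rg z)))
    rw [lf_jn, rg_jn, lf_jn, rg_jn, h.equivariant_p l hl _ hz.1]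
  affine := fun l hl v hv => by
    obtain ⟨A, b, hAb⟩ := h.affine l hl (lf v) hv.1
    refine ⟨A, b, fun z hz hzv => ?_⟩
    change q (lf (jn (P.act l (lf z)) (rg z))) = _
    rw [lf_jn]
    refine hAb _ hz.1 ?_
    have h5 := congrArg lf hzv
    rwa [lf_jn] at h5

/-- the base -/
theorem pull_base (h : θ g = f) : K0Mu.mk (pull θ f (MuVar.base g)) = 1 := by
  have h1 : K0Mu.mk (pull θ f (MuVar.base g)) = K0Mu.mk (MuVar.base f) := by
    refine mk_iso _ _ (fun z => rg z) (fun x => jn (tp θ x) x) ?_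
    exact
      { regular := regularOn_poly (fun i => IsPF.coord _) _
        regular' := regular_jn (regularOn_poly (fun i => isPF_tp θ (fun x => x)
          (fun i => IsPF.coord i) i) _) (regularOn_poly (fun i => IsPF.coord _) _)
        mapsTo := fun z hz => hz.2.1
        mapsTo' := fun x hx => by
          refine ⟨?_, ?_, ?_⟩
          · rw [lf_jn]
            change aeval (tp θ x) g = 0
            rw [aeval_tp, h]
            exact hx
          · rw [rg_jn]
            exact hx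
          · rw [lf_jn, rg_jn]
            rfl
        left_inv := fun (z : Pt k (Fin (m + n))) hz => by
          have h2 : lf z = tp θ (rg z) := hz.2.2
          exact (congrArg (fun v => jn v (rg z)) h2.symm).trans (jn_lf_rg z)
        right_inv := fun x _ => rg_jn _ _
        overBase := fun _ _ => rfl
        equivariant := fun l _ z _ => by
          change rg (jn (lf z) (rg z)) = rg z
          rw [rg_jn] }
  have h2 := mk_eq_of_rel (RelMu.one (f := f))
  rw [map_one] at h2
  exact h1.trans h2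

theorem pull_aff (h : θ g = f) (r : ℕ) :
    K0Mu.mk (pull θ f (MuVar.aff g r)) = K0Mu.mk (MuVar.aff f r) := by
  refine mk_iso _ _ (fun z => jn (rg z) (rg (lf z))) (fun x => jn (jn (tp θ (lf x)) (rg x)) (lf x)) ?_
  exact
    { regular := regular_jn (regularOn_poly (fun i => IsPF.coord _) _)
        (regularOn_poly (fun i => IsPF.coord _) _)
      regular' := regular_jn (regular_jn (regularOn_poly (fun i => isPF_tp θ (fun x => lf x)
        (fun i => IsPF.coord _) i) _) (regularOn_poly (fun i => IsPF.coord _) _))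
        (regularOn_poly (fun i => IsPF.coord _) _)
      mapsTo := fun z hz => by
        change aeval (lf (jn (rg z) (rg (lf z)))) f = 0
        rw [lf_jn]
        exact hz.2.1
      mapsTo' := fun x hx => by
        have hx' : aeval (lf x) f = 0 := hx
        refine ⟨?_, ?_, ?_⟩
        · rw [lf_jn]
          change aeval (lf (jn (tp θ (lf x)) (rg x))) g = 0
          rw [lf_jn, aeval_tp, h]
          exact hx'
        · rw [rg_jn]
          exact hx'
        · rw [lf_jn, rg_jn]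
          change lf (jn (tp θ (lf x)) (rg x)) = _
          rw [lf_jn]
      left_inv := fun (z : Pt k (Fin (m + r + n))) hz => by
        have h2 : lf (lf z) = tp θ (rg z) := hz.2.2
        have h3 : jn (jn (tp θ (lf (jn (rg z) (rg (lf z))))) (rg (jn (rg z) (rg (lf z)))))
            (lf (jn (rg z) (rg (lf z)))) = z := by
          rw [lf_jn, rg_jn, ← h2, jn_lf_rg, jn_lf_rg]
        exact h3
      right_inv := fun (x : Pt k (Fin (n + r))) _ => by
        have h3 : jn (rg (jn (jn (tp θ (lf x)) (rg x)) (lf x)))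
            (rg (lf (jn (jn (tp θ (lf x)) (rg x)) (lf x)))) = x := by
          rw [rg_jn, lf_jn, rg_jn, jn_lf_rg]
        exact h3
      overBase := fun z _ => by
        change lf (jn (rg z) (rg (lf z))) = rg z
        rw [lf_jn]
      equivariant := fun l _ z _ => by
        change jn (rg (jn (lf z) (rg z))) (rg (lf (jn (lf z) (rg z)))) = jn (rg z) (rg (lf z))
        rw [rg_jn, lf_jn] }

theorem pull_scissors (V : MuVar g) (T : Set (Pt k (Fin V.N))) (hT : Constr T) (hTS : T ⊆ V.S)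
    (hst) (hT' : Constr (V.S \ T)) (hst') :
    K0Mu.mk (pull θ f V) = K0Mu.mk (pull θ f (V.restrict T hT hTS hst)) +
      K0Mu.mk (pull θ f (V.restrict (V.S \ T) hT' Set.sdiff_subset hst')) := by
  set T0 : Set (Pt k (Fin (V.N + n))) := pullS θ f (V.restrict T hT hTS hst) with hT0
  have e1 : (pull θ f V).S \ T0 = pullS θ f (V.restrict (V.S \ T) hT' Set.sdiff_subset hst') := by
    ext w
    constructor
    · rintro ⟨⟨h1, h2, h3⟩, h4⟩
      refine ⟨⟨h1, fun h5 => h4 ⟨h5, h2, h3⟩⟩, h2, h3⟩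
    · rintro ⟨⟨h1, h4⟩, h2, h3⟩
      exact ⟨⟨h1, h2, h3⟩, fun h5 => h4 h5.1⟩
  have c0 : Constr T0 := constr_pullS _
  have c1 : Constr ((pull θ f V).S \ T0) := by
    rw [e1]
    exact constr_pullS _
  have s0 : T0 ⊆ (pull θ f V).S := fun w hw => ⟨hTS hw.1, hw.2⟩
  have st0 : ∀ ζ : AlgebraicClosure k, ζ ^ (pull θ f V).d = 1 → ∀ z ∈ T0,
      (pull θ f V).act ζ z ∈ T0 := fun ζ h z hz =>
    (pull θ f (V.restrict T hT hTS hst)).act_mem ζ h z hz
  have st1 : ∀ ζ : AlgebraicClosure k, ζ ^ (pull θ f V).d = 1 → ∀ z ∈ (pull θ f V).S \ T0,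
      (pull θ f V).act ζ z ∈ (pull θ f V).S \ T0 := fun ζ h z hz => by
    rw [e1] at hz ⊢
    exact (pull θ f (V.restrict (V.S \ T) hT' Set.sdiff_subset hst')).act_mem ζ h z hz
  have h1 := mk_eq_of_rel (RelMu.scissors (pull θ f V) T0 c0 s0 st0 c1 st1)
  rw [map_add] at h1
  have h2 : K0Mu.mk ((pull θ f V).restrict T0 c0 s0 st0) =
      K0Mu.mk (pull θ f (V.restrict T hT hTS hst)) := by
    refine isMuIso_id rfl ?_ ?_ rfl ?_
    · exact HEq.rfl
    · exact HEq.rfl
    · exact HEq.rfl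
  have h3 : K0Mu.mk ((pull θ f V).restrict ((pull θ f V).S \ T0) c1 Set.sdiff_subset st1) =
      K0Mu.mk (pull θ f (V.restrict (V.S \ T) hT' Set.sdiff_subset hst')) := by
    refine isMuIso_id rfl (heq_of_eq e1) ?_ rfl ?_
    · exact HEq.rfl
    · exact HEq.rfl
  rw [← h2, ← h3]
  exact h1

/-- **Base change of the Grothendieck rings.** -/
noncomputable def bc (θ : MvPolynomial (Fin m) k →ₐ[k] MvPolynomial (Fin n) k)
    {g : MvPolynomial (Fin m) k} {f : MvPolynomial (Fin n) k} (h : θ g = f) : K0Mu g →+* K0Mu f :=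
  Ideal.Quotient.lift (Ideal.span {x | RelMu g x})
    (MvPolynomial.eval₂Hom (Int.castRingHom (K0Mu f)) fun V => K0Mu.mk (pull θ f V)) (by
      intro a ha
      have h0 : Ideal.span {x | RelMu g x} ≤ RingHom.ker (MvPolynomial.eval₂Hom
          (Int.castRingHom (K0Mu f)) fun V : MuVar g => K0Mu.mk (pull θ f V)) := by
        rw [Ideal.span_le]
        intro x hx
        change MvPolynomial.eval₂Hom (Int.castRingHom (K0Mu f))
          (fun V : MuVar g => K0Mu.mk (pull θ f V)) x = 0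
        cases hx with
        | iso V W φ ψ hi =>
          rw [map_sub, coe_eval₂Hom, eval₂_X, eval₂_X, sub_eq_zero]
          exact mk_iso _ _ _ _ (pull_iso hi)
        | scissors V T hT hTS hst hT' hst' =>
          rw [map_sub, map_add, coe_eval₂Hom, eval₂_X, eval₂_X, eval₂_X, sub_eq_zero]
          exact pull_scissors V T hT hTS hst hT' hst'
        | prod V W P p q j hi =>
          rw [map_sub, map_mul, coe_eval₂Hom, eval₂_X, eval₂_X, eval₂_X, sub_eq_zero]
          have h1 := mk_eq_of_rel (RelMu.prod _ _ _ _ _ _ (pull_prod (θ := θ) (f := f) hi))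
          rw [map_mul] at h1
          exact h1
        | one =>
          rw [map_sub, map_one, coe_eval₂Hom, eval₂_X, sub_eq_zero]
          exact pull_base h
        | affine V P r p q j hi =>
          rw [map_sub, map_mul, coe_eval₂Hom, eval₂_X, eval₂_X, eval₂_X, sub_eq_zero,
            mk_affine _ _ _ _ _ _ (pull_affine (θ := θ) (f := f) hi), pull_aff h]
      exact h0 ha)

theorem bc_mk (h : θ g = f) (V : MuVar g) : bc θ h (K0Mu.mk V) = K0Mu.mk (pull θ f V) := by
  unfold bc K0Mu.mk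
  erw [Ideal.Quotient.lift_mk]
  rw [coe_eval₂Hom, eval₂_X]

theorem bc_L (h : θ g = f) : bc θ h (LMu g) = LMu f := by
  unfold LMu
  rw [bc_mk, pull_aff h]

/-- **Base change of the localised rings.** -/
noncomputable def bcM (h : θ g = f) : MKMu g →+* MKMu f :=
  IsLocalization.Away.lift (S := MKMu g) (LMu g)
    (g := (algebraMap (K0Mu f) (MKMu f)).comp (bc θ h)) (by
      rw [RingHom.comp_apply, bc_L]
      exact IsLocalization.Away.algebraMap_isUnit (S := MKMu f) (LMu f))

theorem bcM_algebraMap (h : θ g = f) (x : K0Mu g) :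
    bcM h (algebraMap (K0Mu g) (MKMu g) x) = algebraMap (K0Mu f) (MKMu f) (bc θ h x) := by
  unfold bcM
  rw [IsLocalization.Away.lift_eq]
  rfl

theorem bcM_Lu (h : θ g = f) : Units.map (bcM h : MKMu g →* MKMu f) (LuMu g) = LuMu f := by
  apply Units.ext
  change bcM h (algebraMap (K0Mu g) (MKMu g) (LMu g)) = algebraMap (K0Mu f) (MKMu f) (LMu f)
  rw [bcM_algebraMap, bc_L]

theorem bcM_zpow (h : θ g = f) (a : ℤ) :
    bcM h (((LuMu g) ^ a : (MKMu g)ˣ) : MKMu g) = (((LuMu f) ^ a : (MKMu f)ˣ) : MKMu f) := by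
  rw [← bcM_Lu h, ← map_zpow]
  rfl

theorem geoMu_mul (f : MvPolynomial (Fin n) k) (a b : ℤ) (hb : 0 < b) :
    (1 - PowerSeries.C (((LuMu f) ^ a : (MKMu f)ˣ) : MKMu f) * PowerSeries.X ^ b.toNat) *
      geoMu f a b = 1 := by
  unfold geoMu
  refine PowerSeries.mul_invOfUnit _ 1 ?_
  have hb' : b.toNat ≠ 0 := by omega
  simp [hb']

theorem map_geo (h : θ g = f) (a b : ℤ) (hb : 0 < b) :
    PowerSeries.map (bcM h) (geoMu g a b) = geoMu f a b := by
  have h1 := congrArg (PowerSeries.map (bcM h)) (geoMu_mul g a b hb)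
  have h2 := geoMu_mul f a b hb
  rw [map_mul, map_sub, map_one, map_mul, PowerSeries.map_C, bcM_zpow, map_pow,
    PowerSeries.map_X] at h1
  calc PowerSeries.map (bcM h) (geoMu g a b)
      = ((1 - PowerSeries.C (((LuMu f) ^ a : (MKMu f)ˣ) : MKMu f) * PowerSeries.X ^ b.toNat) *
          geoMu f a b) * PowerSeries.map (bcM h) (geoMu g a b) := by rw [h2, one_mul]
    _ = geoMu f a b * ((1 - PowerSeries.C (((LuMu f) ^ a : (MKMu f)ˣ) : MKMu f) *
          PowerSeries.X ^ b.toNat) * PowerSeries.map (bcM h) (geoMu g a b)) := by ring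
    _ = geoMu f a b := by rw [h1, mul_one]

theorem C_mem (S : Set (ℤ × ℤ)) (a : MKMu f) : PowerSeries.C a ∈ ratRingMu f S := by
  have := (ratRingMu f S).algebraMap_mem a
  simpa [PowerSeries.algebraMap_apply] using this

theorem X_mem (S : Set (ℤ × ℤ)) : (PowerSeries.X : PowerSeries (MKMu f)) ∈ ratRingMu f S :=
  Algebra.subset_adjoin (Or.inl rfl)

theorem geo_mem {S : Set (ℤ × ℤ)} {p : ℤ × ℤ} (hp : p ∈ S) : geoMu f p.1 p.2 ∈ ratRingMu f S :=
  Algebra.subset_adjoin (Or.inr ⟨p, hp, rfl⟩)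

theorem rat_mono {S T : Set (ℤ × ℤ)} (h : S ⊆ T) : ratRingMu f S ≤ ratRingMu f T := by
  refine Algebra.adjoin_mono (Set.union_subset_union_right _ ?_)
  rintro g ⟨p, hp, rfl⟩
  exact ⟨p, h hp, rfl⟩

/-- **Base change of rationality.** -/
theorem map_mem (h : θ g = f) {S : Set (ℤ × ℤ)} (hS : ∀ p ∈ S, 0 < p.2)
    {z : PowerSeries (MKMu g)} (hz : z ∈ ratRingMu g S) :
    PowerSeries.map (bcM h) z ∈ ratRingMu f S := by
  unfold ratRingMu at hz
  refine Algebra.adjoin_induction (p := fun z _ =>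
    PowerSeries.map (bcM h) z ∈ ratRingMu f S) ?_ ?_ ?_ ?_ hz
  · rintro x (hx | ⟨p, hp, rfl⟩)
    · rw [Set.mem_singleton_iff] at hx
      rw [hx, PowerSeries.map_X]
      exact X_mem _
    · rw [map_geo h _ _ (hS p hp)]
      exact geo_mem hp
  · intro r
    rw [PowerSeries.algebraMap_apply, Algebra.algebraMap_self, RingHom.id_apply,
      PowerSeries.map_C]
    exact C_mem _ _
  · intro x y _ _ hx hy
    rw [map_add]
    exact (ratRingMu f _).add_mem hx hy
  · intro x y _ _ hx hy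
    rw [map_mul]
    exact (ratRingMu f _).mul_mem hx hy

end Pool.Agent.K6.H7.UE
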