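import Pool.Agent.K6.H7.UE.Step
import Pool.Agent.K6.H7.UG.Fin

set_option autoImplicit false
set_option linter.unusedSectionVars false

/-! # Transfer of the refined equivariant conjecture along stable equivalence -/

namespace Pool.Agent.K6.H7.UE

open MvPolynomial Pool.Agent.W428.MOT
open Pool.Agent.N101.CB (stp stp_deg)
open Pool.Agent.Y229.MS (addyz itr shn)
open Pool.Agent.H628R4.TP (IsBFunction)
open Pool.Agent.K6.H7.UG (stp_zero off bf_addyz bf_iso bf_neg_one)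

variable {k : Type} [Field k] [Algebra k ℂ] {n m : ℕ}

/-- the zeta function is in the ring of `S`, up to the factor of the strict transform -/
def InE (f : MvPolynomial (Fin n) k) (S : Set (ℤ × ℤ)) : Prop :=
  fstE f * zetaMu f ∈ ratRingMu f S

/-- the refined equivariant conjecture -/
def RE (f : MvPolynomial (Fin n) k) : Prop :=
  ∃ S : Finset (ℤ × ℤ), (∀ p ∈ S, 0 < p.2 ∧ ∀ c : Polynomial ℂ,
    IsBFunction (map (algebraMap k ℂ) f) ((Polynomial.X + 1) * c) →
      c.eval ((p.1 : ℂ) / p.2) = 0) ∧ InE f S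

/-- the refined equivariant conjecture for the poles -/
def PE (f : MvPolynomial (Fin n) k) : Prop :=
  ∀ (s : ℚ) (c : Polynomial ℂ), IsBFunction (map (algebraMap k ℂ) f) ((Polynomial.X + 1) * c) →
    c.eval (s : ℂ) ≠ 0 → InE f (off s)

theorem InE.mono {f : MvPolynomial (Fin n) k} {S T : Set (ℤ × ℤ)} (h : InE f S) (hST : S ⊆ T) :
    InE f T := rat_mono hST h

theorem InE.iso {f : MvPolynomial (Fin n) k} {S : Set (ℤ × ℤ)} (h : InE f S)
    (hS : ∀ p ∈ S, 0 < p.2) (hnm : n = m)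
    (φ : MvPolynomial (Fin n) k ≃ₐ[k] MvPolynomial (Fin m) k) : InE (φ f) S :=
  isoE hS h hnm φ rfl

theorem InE.step {f : MvPolynomial (Fin n) k} {S1 S2 : Set (ℤ × ℤ)} (h1 : InE (addyz f) S1)
    (h2 : InE (addyz (addyz f)) S2) (hS1 : ∀ p ∈ S1, 0 < p.2) (hS2 : ∀ p ∈ S2, 0 < p.2) :
    InE f (shn 1 S1 ∪ shn 1 (shn 1 S2)) := by
  have hk : CharZero k := RingHom.charZero (algebraMap k ℂ)
  exact stepE hS1 hS2 h1 h2

theorem RE.iso {f : MvPolynomial (Fin n) k} (h : RE f) (hnm : n = m)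
    (φ : MvPolynomial (Fin n) k ≃ₐ[k] MvPolynomial (Fin m) k) : RE (φ f) := by
  obtain ⟨S, h1, h2⟩ := h
  exact ⟨S, fun p hp => ⟨(h1 p hp).1, fun c hc => (h1 p hp).2 c (bf_iso φ hc)⟩,
    h2.iso (fun p hp => (h1 p hp).1) hnm φ⟩

theorem PE.iso {f : MvPolynomial (Fin n) k} (h : PE f) (hnm : n = m)
    (φ : MvPolynomial (Fin n) k ≃ₐ[k] MvPolynomial (Fin m) k) : PE (φ f) :=
  fun s c hc hs => (h s c (bf_iso φ hc) hs).iso (fun _ hp => hp.1) hnm φ

theorem RE.step {f : MvPolynomial (Fin n) k} (hf : f.totalDegree ≠ 0) (h1 : RE (addyz f))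
    (h2 : RE (addyz (addyz f))) : RE f := by
  classical
  obtain ⟨S1, a1, b1⟩ := h1
  obtain ⟨S2, a2, b2⟩ := h2
  have hf1 : (addyz f).totalDegree ≠ 0 := by
    rw [← stp_zero]
    exact stp_deg f 0 0
  refine ⟨S1.image (fun q => (q.1 + q.2, q.2)) ∪ S2.image (fun q => (q.1 + 2 * q.2, q.2)), ?_, ?_⟩
  · intro p hp
    rw [Finset.mem_union] at hp
    rcases hp with hp | hp
    · obtain ⟨q, hq, rfl⟩ := Finset.mem_image.1 hp
      obtain ⟨h3, h4⟩ := a1 q hq
      refine ⟨h3, fun c hc => ?_⟩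
      have h5 := h4 _ (bf_addyz hf hc)
      rw [Polynomial.eval_comp, Polynomial.eval_add, Polynomial.eval_X, Polynomial.eval_one] at h5
      have h6 : ((q.1 + q.2 : ℤ) : ℂ) / (q.2 : ℂ) = (q.1 : ℂ) / q.2 + 1 := by
        have h7 : (q.2 : ℂ) ≠ 0 := by exact_mod_cast h3.ne'
        push_cast
        field_simp
      change c.eval (((q.1 + q.2 : ℤ) : ℂ) / (q.2 : ℂ)) = 0
      rw [h6]
      exact h5
    · obtain ⟨q, hq, rfl⟩ := Finset.mem_image.1 hp
      obtain ⟨h3, h4⟩ := a2 q hq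
      refine ⟨h3, fun c hc => ?_⟩
      have h5 := h4 _ (bf_addyz hf1 (bf_addyz hf hc))
      rw [Polynomial.eval_comp, Polynomial.eval_comp, Polynomial.eval_add, Polynomial.eval_X,
        Polynomial.eval_one, Polynomial.eval_add, Polynomial.eval_X, Polynomial.eval_one] at h5
      have h6 : ((q.1 + 2 * q.2 : ℤ) : ℂ) / (q.2 : ℂ) = (q.1 : ℂ) / q.2 + 1 + 1 := by
        have h7 : (q.2 : ℂ) ≠ 0 := by exact_mod_cast h3.ne'
        push_cast
        field_simp
        ring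
      change c.eval (((q.1 + 2 * q.2 : ℤ) : ℂ) / (q.2 : ℂ)) = 0
      rw [h6]
      exact h5
  · refine (b1.step b2 (fun p hp => (a1 p hp).1) (fun p hp => (a2 p hp).1)).mono ?_
    rintro p (⟨q, hq, rfl⟩ | ⟨q, ⟨q', hq', rfl⟩, rfl⟩)
    · rw [Finset.mem_coe, Finset.mem_union]
      left
      refine Finset.mem_image.2 ⟨q, hq, ?_⟩
      push_cast
      rw [one_mul]
    · rw [Finset.mem_coe, Finset.mem_union]
      right
      refine Finset.mem_image.2 ⟨q', hq', ?_⟩
      push_cast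
      rw [Prod.mk.injEq]
      exact ⟨by ring, rfl⟩

theorem PE.step {f : MvPolynomial (Fin n) k} (hf : f.totalDegree ≠ 0) (h1 : PE (addyz f))
    (h2 : PE (addyz (addyz f))) : PE f := by
  intro s c hc hs
  have hf1 : (addyz f).totalDegree ≠ 0 := by
    rw [← stp_zero]
    exact stp_deg f 0 0
  have c1 := bf_addyz hf hc
  have c2 := bf_addyz hf1 c1
  have b1 := h1 (s - 1) _ c1 (by
    rw [Polynomial.eval_comp, Polynomial.eval_add, Polynomial.eval_X, Polynomial.eval_one]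
    push_cast
    rwa [sub_add_cancel])
  have b2 := h2 (s - 2) _ c2 (by
    rw [Polynomial.eval_comp, Polynomial.eval_comp, Polynomial.eval_add, Polynomial.eval_X,
      Polynomial.eval_one, Polynomial.eval_add, Polynomial.eval_X, Polynomial.eval_one]
    push_cast
    have : (s : ℂ) - 2 + 1 + 1 = s := by ring
    rwa [this])
  refine (b1.step b2 (fun p hp => hp.1) (fun p hp => hp.1)).mono ?_
  rintro p (⟨q, ⟨hq1, hq2⟩, rfl⟩ | ⟨q, ⟨q', ⟨hq1, hq2⟩, rfl⟩, rfl⟩)
  · refine ⟨hq1, fun h => hq2 ?_⟩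
    have h7 : (q.2 : ℚ) ≠ 0 := by exact_mod_cast hq1.ne'
    push_cast at h
    field_simp at h ⊢
    linarith
  · refine ⟨hq1, fun h => hq2 ?_⟩
    have h7 : (q'.2 : ℚ) ≠ 0 := by exact_mod_cast hq1.ne'
    push_cast at h
    field_simp at h ⊢
    linarith

/-- the zeta function itself -/
theorem zeta_of_fst {f : MvPolynomial (Fin n) k} {S : Set (ℤ × ℤ)} (h : InE f S) :
    zetaMu f ∈ ratRingMu f (insert (-1, 1) S) := by
  have h1 := geoMu_mul f (-1) 1 one_pos
  rw [show (1 : ℤ).toNat = 1 from rfl, zpow_neg_one, pow_one] at h1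
  have h2 : geoMu f (-1) 1 * (fstE f * zetaMu f) = zetaMu f := by
    unfold fstE
    calc _ = ((1 - PowerSeries.C (((LuMu f)⁻¹ : (MKMu f)ˣ) : MKMu f) * PowerSeries.X) *
        geoMu f (-1) 1) * zetaMu f := by ring
      _ = _ := by rw [h1, one_mul]
  rw [← h2]
  exact (ratRingMu f _).mul_mem (geo_mem (p := ((-1 : ℤ), (1 : ℤ))) (Set.mem_insert _ _))
    (rat_mono (Set.subset_insert _ _) h)

/-- the refined conjecture implies the original form -/
theorem RE.full {f : MvPolynomial (Fin n) k} (hf : f.totalDegree ≠ 0) (h : RE f) :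
    ∃ S : Finset (ℤ × ℤ), (∀ p ∈ S, 0 < p.2 ∧ ∀ b : Polynomial ℂ,
      IsBFunction (map (algebraMap k ℂ) f) b → b.eval ((p.1 : ℂ) / p.2) = 0) ∧
      zetaMu f ∈ ratRingMu f S := by
  classical
  obtain ⟨S, h1, h2⟩ := h
  refine ⟨insert (-1, 1) S, fun p hp => ?_, ?_⟩
  · rcases Finset.mem_insert.1 hp with rfl | hp
    · refine ⟨one_pos, fun b hb => ?_⟩
      have h6 : (((-1 : ℤ) : ℂ) / ((1 : ℤ) : ℂ)) = -1 := by norm_num
      simp only [h6]
      exact bf_neg_one hf hb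
    · refine ⟨(h1 p hp).1, fun b hb => ?_⟩
      have h5 := bf_neg_one hf hb
      obtain ⟨c', hc'⟩ : (Polynomial.X + 1 : Polynomial ℂ) ∣ b := by
        have := Polynomial.dvd_iff_isRoot.2 h5
        simpa using this
      have h6 := (h1 p hp).2 c' (hc' ▸ hb)
      rw [hc', Polynomial.eval_mul, h6, mul_zero]
  · rw [Finset.coe_insert]
    exact zeta_of_fst h2

end Pool.Agent.K6.H7.UE
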