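import Pool.Agent.K6.H7.UE.Four
import Pool.Agent.K6.H7.UE.Tr
import Pool.Agent.Y229.MS.Fin

set_option autoImplicit false

/-! # The equivariant zeta functions of stably sparse polynomials -/

namespace Pool.Agent.K6.H7.UE

open MvPolynomial Pool.Agent.H628R4.TP Pool.Agent.W425.MM Pool.Agent.W425.GN
open Pool.Agent.W425.ND (spa)
open Pool.Agent.W426.SM (gord IsRay)
open Pool.Agent.W803.SM (gord_le exists_gord)
open Pool.Agent.W425.SV (Kil1)
open Pool.Agent.W425.SM (Ind)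
open Pool.Agent.TH216.MC (HB hb_ind pos_of_ray)
open Pool.Agent.TH216.MF (RelG Spread relG_of_relM nonD_of_ind)
open Pool.Agent.W428.MOT (Pt Constr sp ratRingMu zetaMu MKMu LuMu)
open Pool.Agent.Y229.MS (exyz cyz cyz_map spa_addyz ind_exyz cyz_ne addyz itr stabK shn shn_pos
  shn_union shn_shn map_stabK map_spa spa_deg graph_phi ray_pos TaskFOUR)
open Pool.Agent.W749.JI (fam)
open Pool.Agent.Y229.RE (ex stab)
open Pool.Agent.Y229.PG (BecomesG becomes_global)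

variable {N r : ℕ}

/-- **Affinely independent exponents, refined, equivariant.** -/
theorem ind_fstE {k : Type} [Field k] [Algebra k ℂ] (hr : 2 ≤ r)
    (v : Fin r → Fin N → ℕ) (hv : Ind v) (c : Fin r → k) (hc : ∀ j, c j ≠ 0)
    (P0 : Polynomial ℂ → Prop) (hP0 : ∀ P, P0 P → IsBFunction
      (spa v (fun j => algebraMap k ℂ (c j))) ((Polynomial.X + 1) * P)) :
    ∃ S : Finset (ℤ × ℤ),
      (∀ p ∈ S, p.1 < 0 ∧ 0 < p.2 ∧ (∃ a : Fin N → ℕ, IsRay v a ∧ 0 < gord v a ∧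
        p = (-((∑ i, a i : ℕ) : ℤ), (gord v a : ℤ))) ∧
        ∀ P, P0 P → P.eval ((p.1 : ℂ) / p.2) = 0) ∧ InE (spa v c) S := by
  classical
  have hr0 : 0 < r := by omega
  have hkc : CharZero k := RingHom.charZero (algebraMap k ℂ)
  set f : MvPolynomial (Fin N) ℂ := spa v (fun j => algebraMap k ℂ (c j)) with hf
  have hcC : ∀ j, algebraMap k ℂ (c j) ≠ 0 := fun j => (map_ne_zero _).2 (hc j)
  have hnd : NonD v (fun j => algebraMap k ℂ (c j)) := nonD_of_ind hr0 v hv _ hcC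
  have hA : ∀ P, P0 P → RelG v (Kil1 v) (Spread v) P := by
    intro P hP
    obtain ⟨P', h1, h2⟩ := Pool.Agent.W525.SM.taskA v _ _ hr hv hcC (hP0 P hP)
    have h3 : (Polynomial.X + 1 : Polynomial ℂ) ≠ 0 := Polynomial.X_add_C_ne_zero 1
    rw [mul_left_cancel₀ h3 h1]
    exact relG_of_relM v P' h2
  have hB : HB v fun σ => ∃ P, P0 P ∧ P.eval (-(σ : ℂ)) ≠ 0 := by
    rintro J q hq e he T0 hT0 σ ⟨P, hP, hne⟩ hlog
    exact hb_ind v P (hA P hP) J q hq e he T0 hT0 σ hne hlog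
  obtain ⟨S, hS, hz1⟩ := fourE v hr0 _ hB
  have hsp : ∀ {K : Type} [Field K] (c' : Fin r → K), spa v c' = sp 0 v c' 1 := by
    intro K _ c'
    unfold sp spa
    simp
  refine ⟨S, fun p hp => ?_, ?_⟩
  · obtain ⟨a, ha, hg, hn, rfl⟩ := hS p hp
    refine ⟨pos_of_ray ha, Int.natCast_pos.2 hg, ⟨a, ha, hg, rfl⟩, fun P hP => ?_⟩
    by_contra hne
    apply hn
    refine ⟨P, hP, ?_⟩
    have e : -((((∑ i, a i : ℕ) : ℚ) / gord v a : ℚ) : ℂ) =
        ((-((∑ i, a i : ℕ) : ℤ) : ℤ) : ℂ) / ((gord v a : ℤ) : ℂ) := by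
      push_cast
      ring
    rw [e]
    exact hne
  · rw [hsp]
    refine hz1 k c (nonG_of_nonD _ _ ?_) hc
    exact nonD_ext (k := k) (L := AlgebraicClosure k) _ _ hnd

/-- **Descent.** -/
theorem descendE {k : Type} [Field k] [Algebra k ℂ] {n : ℕ} (f : MvPolynomial (Fin n) k) :
    ∀ (κ : ℕ) (S1 S2 : Set (ℤ × ℤ)), (∀ p ∈ S1, 0 < p.2) → (∀ p ∈ S2, 0 < p.2) →
      InE (itr f κ) S1 → InE (addyz (itr f κ)) S2 → InE f (shn κ S1 ∪ shn (κ + 1) S2) := by
  intro κ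
  induction κ with
  | zero =>
    intro S1 S2 _ _ hz1 _
    refine InE.mono (f := f) hz1 ?_
    intro p hp
    refine Or.inl ⟨p, hp, ?_⟩
    simp
  | succ κ ih =>
    intro S1 S2 hS1 hS2 hz1 hz2
    have h3 : InE (itr f κ) (shn 1 S1 ∪ shn 1 (shn 1 S2)) := InE.step hz1 hz2 hS1 hS2
    have h4 := ih (shn 1 S1 ∪ shn 1 (shn 1 S2)) S1 ?_ hS1 h3 hz1
    · rw [shn_union, shn_shn, shn_shn, shn_shn] at h4
      refine h4.mono ?_
      rintro p ((hp | hp) | hp)
      · exact Or.inl hp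
      · right
        rw [show κ + (1 + 1) = κ + 1 + 1 by ring] at hp
        exact hp
      · exact Or.inl hp
    · rintro p (hp | hp)
      · exact shn_pos hS1 p hp
      · exact shn_pos (shn_pos hS2) p hp

/-- **The main theorem.** -/
theorem mainE {k : Type} [Field k] [Algebra k ℂ] {n κ r : ℕ} (hr : 2 ≤ r)
    (f : MvPolynomial (Fin n) k) (hf : f.totalDegree ≠ 0)
    (v : Fin r → Fin (n + (κ + κ)) → ℕ) (hv : Ind v) (c : Fin r → k) (hc : ∀ j, c j ≠ 0)
    (φ : MvPolynomial (Fin (n + (κ + κ))) k ≃ₐ[k] MvPolynomial (Fin (n + (κ + κ))) k)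
    (hφ : φ (stabK f κ) = spa v c) :
    ∃ S : Finset (ℤ × ℤ),
      (∀ p ∈ S, 0 < p.2 ∧ (p = (-1, 1) ∨ (∃ a : Fin (n + (κ + κ)) → ℕ, IsRay v a ∧
          0 < gord v a ∧ p = (-((∑ i, a i : ℕ) : ℤ) + κ * (gord v a : ℤ), (gord v a : ℤ))) ∨
          ∃ a : Fin (n + (κ + κ) + 2) → ℕ, IsRay (exyz v) a ∧
          0 < gord (exyz v) a ∧ p = (-((∑ i, a i : ℕ) : ℤ) + ((κ + 1 : ℕ) : ℤ) *
            (gord (exyz v) a : ℤ), (gord (exyz v) a : ℤ))) ∧
        ∀ b : Polynomial ℂ, IsBFunction (map (algebraMap k ℂ) f) b →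
          b.eval ((p.1 : ℂ) / p.2) = 0) ∧ zetaMu f ∈ ratRingMu f S := by
  classical
  set fC : MvPolynomial (Fin n) ℂ := map (algebraMap k ℂ) f with hfC
  have hfC0 : fC.totalDegree ≠ 0 := by
    rw [hfC, totalDegree, support_map_of_injective _ (algebraMap k ℂ).injective]
    exact hf
  set cC : Fin r → ℂ := fun j => algebraMap k ℂ (c j) with hcC
  have hcC0 : ∀ j, cC j ≠ 0 := fun j => (map_ne_zero _).2 (hc j)
  have hbec : BecomesG fC κ (spa v cC) := by
    obtain ⟨ψ, hψ⟩ := Pool.Agent.Y405.MS.bc k ℂ φ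
    refine ⟨ψ, ?_⟩
    have e1 : stab fC κ = map (algebraMap k ℂ) (stabK f κ) := by
      rw [map_stabK]
      rfl
    rw [e1, hψ, hφ, Pool.Agent.Y229.MS.map_spa]
  -- the b-functions
  have hb1 : ∀ c' : Polynomial ℂ, IsBFunction fC ((Polynomial.X + 1) * c') →
      IsBFunction (spa v cC) ((Polynomial.X + 1) *
        c'.comp (Polynomial.X + Polynomial.C (κ : ℂ))) := fun c' h =>
    (becomes_global hfC0 h hbec).2 c' rfl
  have hst : stab (spa v cC) 1 = spa (exyz v) (fun j => algebraMap k ℂ (cyz c j)) := by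
    rw [cyz_map, spa_addyz]
    unfold stab addyz
    rw [Fin.sum_univ_one]
    rfl
  have hb2 : ∀ c' : Polynomial ℂ, IsBFunction fC ((Polynomial.X + 1) * c') →
      IsBFunction (spa (exyz v) (fun j => algebraMap k ℂ (cyz c j))) ((Polynomial.X + 1) *
        (c'.comp (Polynomial.X + Polynomial.C (κ : ℂ))).comp
          (Polynomial.X + Polynomial.C ((1 : ℕ) : ℂ))) := by
    intro c' h
    have h5 := (becomes_global (k := 1) (G := stab (spa v cC) 1) (spa_deg hr v hv cC hcC0)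
      (hb1 c' h) ⟨AlgEquiv.refl, rfl⟩).2 _ rfl
    rw [hst] at h5
    exact h5
  obtain ⟨S1, hS1, hz1⟩ := ind_fstE hr v hv c hc
    (fun P => ∃ c' : Polynomial ℂ, IsBFunction fC ((Polynomial.X + 1) * c') ∧
      P = c'.comp (Polynomial.X + Polynomial.C (κ : ℂ)))
    (by
      rintro P ⟨c', h, rfl⟩
      exact hb1 c' h)
  obtain ⟨S2, hS2, hz2⟩ := ind_fstE (by omega : 2 ≤ r + 1) (exyz v) (ind_exyz hv) (cyz c)
    (cyz_ne hc)
    (fun P => ∃ c' : Polynomial ℂ, IsBFunction fC ((Polynomial.X + 1) * c') ∧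
      P = (c'.comp (Polynomial.X + Polynomial.C (κ : ℂ))).comp
          (Polynomial.X + Polynomial.C ((1 : ℕ) : ℂ)))
    (by
      rintro P ⟨c', h, rfl⟩
      exact hb2 c' h)
  set S : Finset (ℤ × ℤ) := insert (-1, 1) (S1.image (fun q => (q.1 + κ * q.2, q.2)) ∪
    S2.image (fun q => (q.1 + ((κ + 1 : ℕ) : ℤ) * q.2, q.2))) with hS
  refine ⟨S, fun p hp => ?_, ?_⟩
  · rcases Finset.mem_insert.1 hp with rfl | hp
    · refine ⟨by norm_num, Or.inl rfl, fun b hb => ?_⟩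
      have h5 := (becomes_global hfC0 hb hbec).1
      have h6 : (((-1 : ℤ) : ℂ) / ((1 : ℤ) : ℂ)) = -1 := by norm_num
      simp only [h6]
      exact h5
    · rcases Finset.mem_union.1 hp with hp | hp
      · obtain ⟨q, hq, rfl⟩ := Finset.mem_image.1 hp
        obtain ⟨-, hq2, ⟨a, ha, hg, rfl⟩, hq4⟩ := hS1 q hq
        refine ⟨hq2, Or.inr (Or.inl ⟨a, ha, hg, rfl⟩), fun b hb => ?_⟩
        have h5 := (becomes_global hfC0 hb hbec).1
        obtain ⟨c', hc'⟩ : (Polynomial.X + 1 : Polynomial ℂ) ∣ b := by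
          have := Polynomial.dvd_iff_isRoot.2 h5
          simpa using this
        have h6 := hq4 _ ⟨c', hc' ▸ hb, rfl⟩
        rw [Polynomial.eval_comp] at h6
        rw [hc', Polynomial.eval_mul]
        have h7 : ((gord v a : ℤ) : ℂ) ≠ 0 := by
          exact_mod_cast (Nat.pos_iff_ne_zero.1 hg)
        have h8 : (((-((∑ i, a i : ℕ) : ℤ) + κ * (gord v a : ℤ) : ℤ) : ℂ) /
            ((gord v a : ℤ) : ℂ)) = Polynomial.eval (((-((∑ i, a i : ℕ) : ℤ) : ℤ) : ℂ) /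
            ((gord v a : ℤ) : ℂ)) (Polynomial.X + Polynomial.C (κ : ℂ)) := by
          rw [Polynomial.eval_add, Polynomial.eval_X, Polynomial.eval_C]
          push_cast at h7 ⊢
          rw [add_div, mul_div_assoc, div_self h7, mul_one]
        simp only
        rw [h8, h6, mul_zero]
      · obtain ⟨q, hq, rfl⟩ := Finset.mem_image.1 hp
        obtain ⟨-, hq2, ⟨a, ha, hg, rfl⟩, hq4⟩ := hS2 q hq
        refine ⟨hq2, Or.inr (Or.inr ⟨a, ha, hg, rfl⟩), fun b hb => ?_⟩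
        have h5 := (becomes_global hfC0 hb hbec).1
        obtain ⟨c', hc'⟩ : (Polynomial.X + 1 : Polynomial ℂ) ∣ b := by
          have := Polynomial.dvd_iff_isRoot.2 h5
          simpa using this
        have h6 := hq4 _ ⟨c', hc' ▸ hb, rfl⟩
        rw [Polynomial.eval_comp, Polynomial.eval_comp] at h6
        rw [hc', Polynomial.eval_mul]
        have h7 : ((gord (exyz v) a : ℤ) : ℂ) ≠ 0 := by
          exact_mod_cast (Nat.pos_iff_ne_zero.1 hg)
        have h8 : (((-((∑ i, a i : ℕ) : ℤ) + ((κ + 1 : ℕ) : ℤ) * (gord (exyz v) a : ℤ) : ℤ) : ℂ) /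
            ((gord (exyz v) a : ℤ) : ℂ)) = Polynomial.eval (Polynomial.eval
              (((-((∑ i, a i : ℕ) : ℤ) : ℤ) : ℂ) / ((gord (exyz v) a : ℤ) : ℂ))
              (Polynomial.X + Polynomial.C ((1 : ℕ) : ℂ)))
              (Polynomial.X + Polynomial.C (κ : ℂ)) := by
          rw [Polynomial.eval_add, Polynomial.eval_X, Polynomial.eval_C, Polynomial.eval_add,
            Polynomial.eval_X, Polynomial.eval_C]
          push_cast at h7 ⊢
          rw [add_div, mul_div_assoc, div_self h7, mul_one]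
          ring
        simp only
        rw [h8, h6, mul_zero]
  · obtain ⟨ψ1, hψ1⟩ := Pool.Agent.Y405.MS.itr k f κ
    set ψ := ψ1.trans φ with hψ
    have e1 : ψ.symm (spa v c) = itr f κ := by
      rw [AlgEquiv.symm_apply_eq]
      show _ = φ (ψ1 (itr f κ))
      rw [hψ1, hφ]
    obtain ⟨ψ', hψ'⟩ := Pool.Agent.Y405.MS.ext k ψ
    have e2 : ψ'.symm (spa (exyz v) (cyz c)) = addyz (itr f κ) := by
      rw [AlgEquiv.symm_apply_eq, hψ', spa_addyz, ← e1, AlgEquiv.apply_symm_apply]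
    have z1 := hz1.iso (fun p hp => (hS1 p hp).2.1) (by ring) ψ.symm
    have z2 := hz2.iso (fun p hp => (hS2 p hp).2.1) (by ring) ψ'.symm
    rw [e1] at z1
    rw [e2] at z2
    have z3 := descendE f κ S1 S2 (fun p hp => (hS1 p hp).2.1)
      (fun p hp => (hS2 p hp).2.1) z1 z2
    refine rat_mono ?_ (zeta_of_fst z3)
    rintro p (rfl | ⟨q, hq, rfl⟩ | ⟨q, hq, rfl⟩)
    · exact Finset.mem_coe.2 (Finset.mem_insert_self _ _)
    · exact Finset.mem_coe.2 (Finset.mem_insert_of_mem (Finset.mem_union_left _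
        (Finset.mem_image_of_mem (fun q : ℤ × ℤ => (q.1 + (κ : ℤ) * q.2, q.2)) hq)))
    · exact Finset.mem_coe.2 (Finset.mem_insert_of_mem (Finset.mem_union_right _
        (Finset.mem_image_of_mem (fun q : ℤ × ℤ => (q.1 + ((κ + 1 : ℕ) : ℤ) * q.2, q.2)) hq)))

/-- compositions -/
theorem compE {k : Type} [Field k] [Algebra k ℂ] {n κ r : ℕ} (hr : 2 ≤ r)
    (π : Fin r → Fin (κ + 1)) (m : Fin r → Fin (n + κ) → ℕ) (hv : Ind (ex π m))
    (a : Fin r → k) (ha : ∀ j, a j ≠ 0) (c : Fin κ → k) (hc : ∀ i, c i ≠ 0)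
    (p : Fin κ → MvPolynomial (Fin n) k)
    (hl : ∀ i : Fin κ, fam π m a i.succ = C (c i) * X (Fin.natAdd n i) -
      rename (Fin.castAdd κ) (p i)) (f : MvPolynomial (Fin n) k)
    (hff : f = aeval (Fin.append X fun i => C (c i)⁻¹ * p i) (fam π m a 0))
    (hf : f.totalDegree ≠ 0) :
    ∃ S : Finset (ℤ × ℤ),
      (∀ p ∈ S, p.1 < 0 ∧ 0 < p.2 ∧
        ∀ b : Polynomial ℂ, IsBFunction (map (algebraMap k ℂ) f) b →
          b.eval ((p.1 : ℂ) / p.2) = 0) ∧ zetaMu f ∈ ratRingMu f S := by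
  classical
  have hkc : CharZero k := RingHom.charZero (algebraMap k ℂ)
  have hf0 : f ≠ 0 := by
    rintro rfl
    exact hf totalDegree_zero
  obtain ⟨φ, hφ⟩ := graph_phi π m a c hc p hl
  rw [← hff] at hφ
  obtain ⟨S, hS, hz⟩ := mainE hr f hf (ex π m) hv a ha φ hφ
  have hpos := fun u L hL hu => ray_pos π m a c hc p hl (hff ▸ hf0) u L hL hu
  refine ⟨S, fun q hq => ⟨?_, (hS q hq).1, (hS q hq).2.2⟩, hz⟩
  rcases (hS q hq).2.1 with rfl | ⟨u, hu, hg, rfl⟩ | ⟨u, hu, hg, rfl⟩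
  · norm_num
  · have h1 := hpos u (gord (ex π m) u) hg fun j => gord_le _ _ j
    show -((∑ i, u i : ℕ) : ℤ) + κ * (gord (ex π m) u : ℤ) < 0
    have h2 : ((κ * gord (ex π m) u : ℕ) : ℤ) < ((∑ i, u i : ℕ) : ℤ) := by exact_mod_cast h1
    push_cast at h2 ⊢
    linarith
  · set L := gord (exyz (ex π m)) u with hL
    have hle : ∀ j, L ≤ ∑ i, u i * exyz (ex π m) j i := fun j => gord_le _ _ j
    have h1 := hpos (fun i => u (Fin.castAdd 2 i)) L hg (by
      intro j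
      have h2 := hle j.succ
      rw [Fin.sum_univ_add] at h2
      simpa [exyz, Fin.cons_succ, Fin.append_left, Fin.append_right] using h2)
    have h3 : L ≤ ∑ i : Fin 2, u (Fin.natAdd (n + (κ + κ)) i) := by
      have h2 := hle 0
      rw [Fin.sum_univ_add] at h2
      simpa [exyz, Fin.cons_zero, Fin.append_left, Fin.append_right] using h2
    have h4 : ∑ i, u i = ∑ i : Fin (n + (κ + κ)), u (Fin.castAdd 2 i) +
        ∑ i : Fin 2, u (Fin.natAdd (n + (κ + κ)) i) := Fin.sum_univ_add u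
    have h5 : (κ + 1) * L < ∑ i, u i := by
      rw [h4, add_mul, one_mul]
      omega
    show -((∑ i, u i : ℕ) : ℤ) + ((κ + 1 : ℕ) : ℤ) * (L : ℤ) < 0
    have h6 : (((κ + 1) * L : ℕ) : ℤ) < ((∑ i, u i : ℕ) : ℤ) := by exact_mod_cast h5
    push_cast at h6 ⊢
    linarith

end Pool.Agent.K6.H7.UE
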