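import Pool.Agent.K6.H7.UE.Rel
import Pool.Agent.W63.MEFin
import Pool.Agent.Z864.MS.Three

set_option autoImplicit false

/-! # Base change of the jets -/

namespace Pool.Agent.K6.H7.UE

open MvPolynomial Pool.Agent.W428.MOT
open Pool.Agent.W375.MG (JetG)
open Pool.Agent.Y229.MS (Tl addyz)
open Pool.Agent.W358.ME.EK0 (mk_iso)
open Pool.Agent.W63.MEFin (mapEMeas)
open Pool.Agent.Z864.MS (Tm isPF_Tm coeff_Tm Tm_Tm)

variable {k : Type} [Field k] {n m N : ℕ}

section fin

variable {ι : Type} [Fintype ι]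

/-- coordinates by the index type -/
noncomputable def up (z : Pt k (Fin (Fintype.card ι))) : Pt k ι := fun i => z (Fintype.equivFin ι i)

/-- coordinates by numbers -/
noncomputable def dn (z : Pt k ι) : Pt k (Fin (Fintype.card ι)) := fun i => z ((Fintype.equivFin ι).symm i)

@[simp] theorem up_dn (z : Pt k ι) : up (dn z) = z := by
  funext i
  simp [up, dn]

@[simp] theorem dn_up (z : Pt k (Fin (Fintype.card ι))) : dn (up z) = z := by
  funext i
  simp [up, dn]

theorem up_act (ρ : ι → ℤ) (l : AlgebraicClosure k) (z : Pt k (Fin (Fintype.card ι))) :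
    up (dact (fun i => ρ ((Fintype.equivFin ι).symm i)) l z) = dact ρ l (up z) := by
  funext i
  simp [up, dact]

theorem act_dn (ρ : ι → ℤ) (l : AlgebraicClosure k) (z : Pt k ι) :
    dact (fun i => ρ ((Fintype.equivFin ι).symm i)) l (dn z) = dn (dact ρ l z) := by
  funext i
  simp [dn, dact]

end fin

theorem jetE_iff (g : MvPolynomial (Fin m) k) (z : Pt k (Fin m × Fin (N + 1))) :
    z ∈ JetE g N ↔ (∀ j < N, PowerSeries.coeff j (aeval (arc z) g) = 0) ∧
      PowerSeries.coeff N (aeval (arc z) g) ∈ E1 (1 : k) := by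
  unfold JetE E1
  rw [map_one, Set.mem_singleton_iff]
  constructor
  · intro h
    refine ⟨fun j hj => ?_, ?_⟩
    · rw [h j hj.le, if_neg hj.ne]
    · rw [h N le_rfl, if_pos rfl]
  · rintro ⟨h1, h2⟩ j hj
    split_ifs with h
    · rw [h]
      exact h2
    · exact h1 j (by omega)

section kill

variable {θ : MvPolynomial (Fin m) k →ₐ[k] MvPolynomial (Fin n) k} {g : MvPolynomial (Fin m) k}
  {f : MvPolynomial (Fin n) k} {W : Set (Pt k (Fin m))} {β : Fin n → Fin m}

theorem tp_beta (h1 : ∀ i, θ (X (β i)) = X i) (x : Pt k (Fin n)) (i : Fin n) :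
    tp θ x (β i) = x i := by
  unfold tp
  rw [h1, aeval_X]

theorem tp_not (h2 : ∀ j, (∀ i, β i ≠ j) → θ (X j) = 0) (x : Pt k (Fin n)) (j : Fin m)
    (hj : ∀ i, β i ≠ j) : tp θ x j = 0 := by
  unfold tp
  rw [h2 j hj, map_zero]

theorem tp_self (h1 : ∀ i, θ (X (β i)) = X i) (h2 : ∀ j, (∀ i, β i ≠ j) → θ (X j) = 0)
    (hW : ∀ w, w ∈ W ↔ ∀ j, (∀ i, β i ≠ j) → w j = 0) (w : Pt k (Fin m)) (hw : w ∈ W) :
    tp θ (fun i => w (β i)) = w := by
  funext j
  by_cases hj : ∃ i, β i = j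
  · obtain ⟨i, rfl⟩ := hj
    rw [tp_beta h1]
  · have hj' : ∀ i, β i ≠ j := fun i h => hj ⟨i, h⟩
    rw [tp_not h2 _ j hj', (hW w).1 hw j hj']

theorem tp_mem (h2 : ∀ j, (∀ i, β i ≠ j) → θ (X j) = 0)
    (hW : ∀ w, w ∈ W ↔ ∀ j, (∀ i, β i ≠ j) → w j = 0) (x : Pt k (Fin n)) : tp θ x ∈ W :=
  (hW _).2 fun j hj => tp_not h2 x j hj

/-- **The jets with origins in a linear subspace.** -/
theorem pull_kill (hθ : θ g = f) (h1 : ∀ i, θ (X (β i)) = X i)
    (h2 : ∀ j, (∀ i, β i ≠ j) → θ (X j) = 0)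
    (hW : ∀ w, w ∈ W ↔ ∀ j, (∀ i, β i ≠ j) → w j = 0)
    (hF : Fam f g W fun i => some (β i)) (hN : 0 < N) :
    K0Mu.mk (pull θ f (diagVar (jetValid g N hN))) = K0Mu.mk (diagVar (hF.valid_jet 1 hN)) := by
  have hπ : ∀ w : Pt k (Fin (Fintype.card (Fin m × Fin (N + 1)) + n)),
      w ∈ pullS θ f (diagVar (jetValid g N hN)) →
      up (lf w) ∈ JetE g N ∧ aeval (rg w) f = 0 ∧ (fun j => up (lf w) (j, 0)) = tp θ (rg w) :=
    fun w hw => hw
  refine mk_iso _ _
    (fun (w : Pt k (Fin (Fintype.card (Fin m × Fin (N + 1)) + n))) => lf w)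
    (fun (z : Pt k (Fin (Fintype.card (Fin m × Fin (N + 1))))) => jn z fun i => up z (β i, 0)) ?_
  refine
    { regular := regularOn_poly (fun i => IsPF.coord _) _
      regular' := regular_jn (regularOn_poly (fun i => IsPF.coord _) _)
        (regularOn_poly (fun i => IsPF.coord _) _)
      mapsTo := ?_
      mapsTo' := ?_
      left_inv := ?_
      right_inv := ?_
      overBase := ?_
      equivariant := ?_ }
  · intro w hw
    obtain ⟨a1, a2, a3⟩ := hπ w hw
    obtain ⟨b1, b2⟩ := (jetE_iff g _).1 a1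
    refine ⟨?_, b1, b2⟩
    change (fun i => up (lf w) (i, 0)) ∈ W
    rw [a3]
    exact tp_mem h2 hW _
  · rintro z ⟨c1, c2, c3⟩
    have c1' : (fun j => up z (j, 0)) ∈ W := c1
    have c4 : tp θ (fun i => up z (β i, 0)) = fun j => up z (j, 0) :=
      tp_self h1 h2 hW (fun j => up z (j, 0)) c1'
    refine ⟨?_, ?_, ?_⟩
    · rw [lf_jn]
      exact (jetE_iff g _).2 ⟨c2, c3⟩
    · rw [rg_jn, ← hθ, ← aeval_tp, c4, ← coeff_zero_arc]
      exact c2 0 hN
    · rw [lf_jn, rg_jn, c4]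
      rfl
  · intro w hw
    obtain ⟨a1, a2, a3⟩ := hπ w hw
    have e : (fun i => up (lf w) (β i, 0)) = rg w := by
      funext i
      have := congrFun a3 (β i)
      rw [tp_beta h1] at this
      exact this
    exact (congrArg (fun x => jn (lf w) x) e).trans (jn_lf_rg w)
  · intro z _
    exact lf_jn _ _
  · intro w hw
    obtain ⟨a1, a2, a3⟩ := hπ w hw
    funext i
    have := congrFun a3 (β i)
    rw [tp_beta h1] at this
    exact this
  · intro l hl w hw
    exact lf_jn _ _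

end kill

section iso

variable {g : MvPolynomial (Fin m) k} {f : MvPolynomial (Fin n) k}

/-- **The jets and isomorphisms.** -/
theorem pull_equiv (φ : MvPolynomial (Fin m) k ≃ₐ[k] MvPolynomial (Fin n) k) (hφ : φ g = f)
    (hN : 0 < N) :
    K0Mu.mk (pull (φ : MvPolynomial (Fin m) k →ₐ[k] MvPolynomial (Fin n) k) f
      (diagVar (jetValid g N hN))) = K0Mu.mk (diagVar (jetValid f N hN)) := by
  set θ : MvPolynomial (Fin m) k →ₐ[k] MvPolynomial (Fin n) k :=
    (φ : MvPolynomial (Fin m) k →ₐ[k] MvPolynomial (Fin n) k) with hθ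
  set θ' : MvPolynomial (Fin n) k →ₐ[k] MvPolynomial (Fin m) k :=
    (φ.symm : MvPolynomial (Fin n) k →ₐ[k] MvPolynomial (Fin m) k) with hθ'
  have k1 : ∀ p, θ (θ' p) = p := fun p => φ.apply_symm_apply p
  have k2 : ∀ p, θ' (θ p) = p := fun p => φ.symm_apply_apply p
  have hfg : θ g = f := hφ
  have hgf : θ' f = g := by rw [← hfg, k2]
  have hπ : ∀ w : Pt k (Fin (Fintype.card (Fin m × Fin (N + 1)) + n)),
      w ∈ pullS θ f (diagVar (jetValid g N hN)) →
      up (lf w) ∈ JetE g N ∧ aeval (rg w) f = 0 ∧ (fun j => up (lf w) (j, 0)) = tp θ (rg w) :=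
    fun w hw => hw
  have hTm : ∀ {a b : ℕ} (ξ : MvPolynomial (Fin a) k →ₐ[k] MvPolynomial (Fin b) k)
      (z : Pt k (Fin b × Fin (N + 1))) (i : Fin a), Tm ξ N z (i, 0) =
        aeval (fun j => z (j, 0)) (ξ (X i)) := fun ξ z i => coeff_zero_arc z _
  have hact : ∀ {a b : ℕ} (ξ : MvPolynomial (Fin a) k →ₐ[k] MvPolynomial (Fin b) k)
      (l : AlgebraicClosure k) (z : Pt k (Fin b × Fin (N + 1))),
      Tm ξ N (dact (jw b N) l z) = dact (jw a N) l (Tm ξ N z) := by
    intro a b ξ l z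
    funext p
    change PowerSeries.coeff (p.2 : ℕ) (aeval (arc (dact (jw b N) l z)) (ξ (X p.1))) =
      l ^ ((p.2 : ℕ) : ℤ) * PowerSeries.coeff (p.2 : ℕ) (aeval (arc z) (ξ (X p.1)))
    rw [coeff_jw, zpow_natCast]
  have hjet : ∀ {a b : ℕ} (ξ : MvPolynomial (Fin a) k →ₐ[k] MvPolynomial (Fin b) k)
      (p : MvPolynomial (Fin a) k) (z : Pt k (Fin b × Fin (N + 1))), z ∈ JetE (ξ p) N →
      Tm ξ N z ∈ JetE p N := by
    intro a b ξ p z hz j hj
    rw [coeff_Tm _ _ _ _ hj]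
    exact hz j hj
  refine mk_iso _ _
    (fun (w : Pt k (Fin (Fintype.card (Fin m × Fin (N + 1)) + n))) =>
      (dn (Tm θ' N (up (lf w))) : Pt k (Fin (Fintype.card (Fin n × Fin (N + 1))))))
    (fun (z : Pt k (Fin (Fintype.card (Fin n × Fin (N + 1))))) =>
      jn (dn (Tm θ N (up z))) fun i => up z (i, 0)) ?_
  refine
    { regular := regularOn_poly (fun i => ?_) _
      regular' := regular_jn (regularOn_poly (fun i => ?_) _)
        (regularOn_poly (fun i => IsPF.coord _) _)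
      mapsTo := ?_
      mapsTo' := ?_
      left_inv := ?_
      right_inv := ?_
      overBase := ?_
      equivariant := ?_ }
  · exact (isPF_Tm θ' _).comp (fun w => up (lf w)) fun i => IsPF.coord _
  · exact (isPF_Tm θ _).comp (fun w => up w) fun i => IsPF.coord _
  · intro w hw
    obtain ⟨a1, a2, a3⟩ := hπ w hw
    change up (dn (Tm θ' N (up (lf w)))) ∈ JetE f N
    rw [up_dn]
    refine hjet θ' f _ ?_
    rw [hgf]
    exact a1
  · intro z hz
    have hz' : up z ∈ JetE f N := hz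
    refine ⟨?_, ?_, ?_⟩
    · rw [lf_jn]
      change up (dn (Tm θ N (up z))) ∈ JetE g N
      rw [up_dn]
      refine hjet θ g _ ?_
      rw [hfg]
      exact hz'
    · rw [rg_jn, ← coeff_zero_arc]
      have := hz' 0 (Nat.zero_le _)
      rw [if_neg (by omega)] at this
      exact this
    · rw [lf_jn, rg_jn]
      change (fun j => up (dn (Tm θ N (up z))) (j, 0)) = _
      rw [up_dn]
      funext j
      exact hTm θ _ j
  · intro w hw
    obtain ⟨a1, a2, a3⟩ := hπ w hw
    have e1 : dn (Tm θ N (up (dn (Tm θ' N (up (lf w)))))) = lf w := by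
      rw [up_dn, Tm_Tm θ' θ k2, dn_up]
      rfl
    have e2 : (fun i => up (dn (Tm θ' N (up (lf w)))) (i, 0)) = rg w := by
      rw [up_dn]
      funext i
      rw [hTm, a3, aeval_tp, k1, aeval_X]
      rfl
    exact (congrArg₂ (fun x y => jn x y) e1 e2).trans (jn_lf_rg w)
  · intro z _
    change dn (Tm θ' N (up (lf (jn (dn (Tm θ N (up z))) fun i => up z (i, 0))))) = z
    rw [lf_jn, up_dn, Tm_Tm θ θ' k1, dn_up]
  · intro w hw
    obtain ⟨a1, a2, a3⟩ := hπ w hw
    change (fun i => up (dn (Tm θ' N (up (lf w)))) (i, 0)) = rg w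
    rw [up_dn]
    funext i
    rw [hTm, a3, aeval_tp, k1, aeval_X]
    rfl
  · intro l hl w hw
    change dn (Tm θ' N (up (lf (jn (dact (fun i => jw m N ((Fintype.equivFin _).symm i))
      (l ^ N) (lf w)) (rg w))))) = dact (fun i => jw n N ((Fintype.equivFin _).symm i)) (l ^ N)
        (dn (Tm θ' N (up (lf w))))
    rw [lf_jn, up_act, hact, act_dn]

end iso

end Pool.Agent.K6.H7.UE
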