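import Pool.Agent.K6.H7.UE.Tw
import Pool.Agent.Y366.MS.OneA
import Pool.Agent.Y971.MS.One
import Pool.Agent.Y812.MS.Two
import Pool.Agent.W230.ME.Free
import Pool.Agent.W366.MESub
import Pool.Agent.W749.ME.EStC

set_option autoImplicit false

/-! # Jets of `g + y z` with an action: the part `ord y = i` -/

namespace Pool.Agent.K6.H7.UE

open MvPolynomial Pool.Agent.W428.MOT
open Pool.Agent.W375.MG (JetG constr_W)
open Pool.Agent.Y229.MS (Tl addyz Wyz Yi CE)
open Pool.Agent.Y366.MS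

variable {k : Type} [Field k] {n m N : ℕ}

/-! ### the base -/

/-- the base point of a jet -/
def jbb (β : Fin n → Option (Fin m)) (N : ℕ) (i : Fin n) : Option (Fin m × Fin (N + 1)) :=
  (β i).map fun a => (a, 0)

theorem cbase_jbb (β : Fin n → Option (Fin m)) (z : Pt k (Fin m × Fin (N + 1))) :
    cbase (jbb β N) z = cbase β fun a => z (a, 0) := by
  funext i
  unfold cbase jbb
  cases β i <;> rfl

/-- jets of `g` with origins in `W`, over `X_s(f)` -/
structure Fam (f : MvPolynomial (Fin n) k) (g : MvPolynomial (Fin m) k) (W : Set (Pt k (Fin m)))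
    (β : Fin n → Option (Fin m)) : Prop where
  constr : Constr W
  base : ∀ w ∈ W, aeval w g = 0 → aeval (cbase β w) f = 0

theorem arc_jw (l : AlgebraicClosure k) (z : Pt k (Fin m × Fin (N + 1))) :
    arc (dact (jw m N) l z) = fun i => PowerSeries.rescale l (arc z i) :=
  funext fun i => arc_dact l z i

theorem coeff_jw (g : MvPolynomial (Fin m) k) (l : AlgebraicClosure k)
    (z : Pt k (Fin m × Fin (N + 1))) (j : ℕ) :
    PowerSeries.coeff j (aeval (arc (dact (jw m N) l z)) g) =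
      l ^ j * PowerSeries.coeff j (aeval (arc z) g) := by
  rw [arc_jw, aeval_rescale, PowerSeries.coeff_rescale]

theorem jw_zero (l : AlgebraicClosure k) (z : Pt k (Fin m × Fin (N + 1))) :
    (fun i => dact (jw m N) l z (i, 0)) = fun i => z (i, 0) := by
  funext i
  simp [dact, jw]

theorem coeff_zero_arc (z : Pt k (Fin m × Fin (N + 1))) (P : MvPolynomial (Fin m) k) :
    PowerSeries.coeff 0 (aeval (arc z) P) = aeval (fun i => z (i, 0)) P := by
  rw [PowerSeries.coeff_zero_eq_constantCoeff_apply]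
  induction P using MvPolynomial.induction_on with
  | C c =>
    rw [MvPolynomial.algHom_C, MvPolynomial.algHom_C, PowerSeries.algebraMap_apply,
      PowerSeries.constantCoeff_C]
  | add p q hp hq => rw [map_add, map_add, map_add, hp, hq]
  | mul_X p i hp =>
    rw [map_mul, map_mul, map_mul, hp, aeval_X, aeval_X]
    congr 1

theorem ce_one (e : k) : CE ({algebraMap k (AlgebraicClosure k) e} : Set (AlgebraicClosure k)) :=
  fun F hF => by
    have := Constr.eq hF (IsPF.const e)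
    simpa only [Set.mem_singleton_iff] using this

variable {f : MvPolynomial (Fin n) k} {g : MvPolynomial (Fin m) k} {W : Set (Pt k (Fin m))}
  {β : Fin n → Option (Fin m)}

theorem Fam.valid_jet (h : Fam f g W β) (e : k) (hN : 0 < N) :
    Valid f (JetG g W {algebraMap k _ e} N) (jw m N) N (jbb β N) where
  constr := Pool.Agent.Y971.MS.constr_jet g h.constr (ce_one e) N
  pos := hN
  stable := fun l hl z hz => by
    refine ⟨?_, fun j hj => ?_, ?_⟩
    · rw [jw_zero]
      exact hz.1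
    · rw [coeff_jw, hz.2.1 j hj, mul_zero]
    · rw [coeff_jw, hl, one_mul]
      exact hz.2.2
  base := fun z hz => by
    rw [cbase_jbb]
    refine h.base _ hz.1 ?_
    rw [← coeff_zero_arc]
    exact hz.2.1 0 hN
  inv := fun i j hj => by
    unfold jbb at hj
    rw [Option.map_eq_some_iff] at hj
    obtain ⟨a, -, rfl⟩ := hj
    rfl

theorem Fam.gms_tl (h : Fam f g W β) {i : ℕ} (hi : 0 < i) :
    GmS f (Tl g W i N) (jw m N) (jbb β N) where
  constr := constr_Tl g h.constr i
  stable := fun l _ z hz => by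
    refine ⟨?_, fun j hj => ?_⟩
    · rw [jw_zero]
      exact hz.1
    · rw [coeff_jw, hz.2 j hj, mul_zero]
  base := fun z hz => by
    rw [cbase_jbb]
    refine h.base _ hz.1 ?_
    rw [← coeff_zero_arc]
    exact hz.2 0 hi
  inv := fun i j hj => by
    unfold jbb at hj
    rw [Option.map_eq_some_iff] at hj
    obtain ⟨a, -, rfl⟩ := hj
    rfl

/-! ### `g + y z` -/

/-- the origins -/
def Wo (W : Set (Pt k (Fin m))) : Set (Pt k (Fin (m + 2))) :=
  {w | (fun a => w (Fin.castAdd 2 a)) ∈ W ∧ w (Fin.natAdd m 0) = 0 ∧ w (Fin.natAdd m 1) = 0}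

/-- the base map -/
def bo (β : Fin n → Option (Fin m)) (i : Fin n) : Option (Fin (m + 2)) :=
  (β i).map (Fin.castAdd 2)

theorem cbase_bo (β : Fin n → Option (Fin m)) (w : Pt k (Fin (m + 2))) :
    cbase (bo β) w = cbase β fun a => w (Fin.castAdd 2 a) := by
  funext i
  unfold cbase bo
  cases β i <;> rfl

theorem Fam.addyz (h : Fam f g W β) : Fam f (addyz g) (Wo W) (bo β) where
  constr := Constr.and (h.constr.preimage _ fun i => IsPF.coord _)
    (Constr.and (Constr.eqz (IsPF.coord _)) (Constr.eqz (IsPF.coord _)))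
  base := fun w hw hg => by
    rw [cbase_bo]
    refine h.base _ hw.1 ?_
    rw [Pool.Agent.Y971.MS.aeval_addyz, hw.2.1, zero_mul, add_zero] at hg
    exact hg

/-! ### the weights -/

/-- the weights: the coefficients of `z` with index in `[t, q]` have weight `i + j` -/
def ws (m N i q t : ℕ) (p : Fin (m + 2) × Fin (N + 1)) : ℤ :=
  if p.1 = Fin.natAdd m 1 ∧ t ≤ (p.2 : ℕ) ∧ (p.2 : ℕ) ≤ q then (i : ℤ) + (p.2 : ℕ)
  else ((p.2 : ℕ) : ℤ)

theorem ws_self (i q : ℕ) : ws m N i q (q + 1) = jw (m + 2) N := by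
  funext p
  unfold ws jw
  rw [if_neg]
  omega

theorem ws_of_ne (i q t : ℕ) (a : Fin (m + 2)) (ha : a ≠ Fin.natAdd m 1) (j : Fin (N + 1)) :
    ws m N i q t (a, j) = (j : ℕ) := by
  unfold ws
  rw [if_neg]
  exact fun h => ha h.1

theorem ws_lt (i q t : ℕ) (a : Fin (m + 2)) (j : Fin (N + 1)) (hj : (j : ℕ) < t) :
    ws m N i q t (a, j) = (j : ℕ) := by
  unfold ws
  rw [if_neg]
  simp only
  omega

theorem ws_mem (i q t : ℕ) (j : Fin (N + 1)) (hj : t ≤ (j : ℕ)) (hj' : (j : ℕ) ≤ q) :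
    ws m N i q t (Fin.natAdd m 1, j) = ((i + j : ℕ) : ℤ) := by
  unfold ws
  rw [if_pos ⟨rfl, hj, hj'⟩]
  push_cast
  rfl

section semi

variable (i q t : ℕ) (l : AlgebraicClosure k) (w : Pt k (Fin (m + 2) × Fin (N + 1)))

theorem Yc_ge (j : ℕ) (hj : ¬ j < N + 1) : Yc w j = 0 := by
  simp only [Yc, arc, PowerSeries.coeff_mk, dif_neg hj]

theorem Zc_ge (j : ℕ) (hj : ¬ j < N + 1) : Zc w j = 0 := by
  simp only [Zc, arc, PowerSeries.coeff_mk, dif_neg hj]

theorem Yc_dact (j : ℕ) : Yc (dact (ws m N i q t) l w) j = l ^ j * Yc w j := by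
  by_cases hj : j < N + 1
  · rw [Yc_of_lt _ _ hj, Yc_of_lt _ _ hj]
    simp only [dact]
    rw [ws_of_ne _ _ _ _ natAdd01, zpow_natCast]
  · rw [Yc_ge _ _ hj, Yc_ge _ _ hj, mul_zero]

theorem Zc_dact_lt (j : ℕ) (hj' : j < t) : Zc (dact (ws m N i q t) l w) j = l ^ j * Zc w j := by
  by_cases hj : j < N + 1
  · rw [Zc_of_lt _ _ hj, Zc_of_lt _ _ hj]
    simp only [dact]
    rw [ws_lt _ _ _ _ _ hj', zpow_natCast]
  · rw [Zc_ge _ _ hj, Zc_ge _ _ hj, mul_zero]

theorem Zc_dact_mem (j : ℕ) (hj' : t ≤ j) (hj'' : j ≤ q) :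
    Zc (dact (ws m N i q t) l w) j = l ^ (i + j) * Zc w j := by
  by_cases hj : j < N + 1
  · rw [Zc_of_lt _ _ hj, Zc_of_lt _ _ hj]
    simp only [dact]
    rw [ws_mem _ _ _ _ hj' hj'', zpow_natCast]
  · rw [Zc_ge _ _ hj, Zc_ge _ _ hj, mul_zero]

theorem Fc_dact (j : ℕ) : Fc g (dact (ws m N i q t) l w) j = l ^ j * Fc g w j := by
  unfold Fc
  have h1 : (fun a => arc (dact (ws m N i q t) l w) (Fin.castAdd 2 a)) =
      fun a => PowerSeries.rescale l (arc w (Fin.castAdd 2 a)) := by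
    funext a
    ext j
    rw [PowerSeries.coeff_rescale]
    simp only [arc, PowerSeries.coeff_mk, dact]
    split_ifs with h
    · rw [ws_of_ne _ _ _ _ (castAdd_ne _ _), zpow_natCast]
    · rw [mul_zero]
  rw [h1, aeval_rescale, PowerSeries.coeff_rescale]

theorem hh_dact (s : ℕ) (hs : s < t) :
    hh g i s (dact (ws m N i q t) l w) = l ^ (i + s) * hh g i s w := by
  unfold hh
  rw [Fc_dact, mul_add, Finset.mul_sum]
  congr 1
  refine Finset.sum_congr rfl fun a ha => ?_
  have ha' := Finset.mem_range.1 ha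
  rw [Yc_dact, Zc_dact_lt _ _ _ _ _ _ (by omega)]
  have e : l ^ (i + s) = l ^ (i + s - a) * l ^ a := by
    rw [← pow_add]
    congr 1
    omega
  rw [e]
  ring

theorem bb_dact (s : ℕ) (hs : s ≤ t) :
    Pool.Agent.Y366.MS.bb g i s (dact (ws m N i q t) l w) =
      l ^ (i + s) * Pool.Agent.Y366.MS.bb g i s w := by
  unfold Pool.Agent.Y366.MS.bb
  rw [Fc_dact, mul_add, Finset.mul_sum]
  congr 1
  refine Finset.sum_congr rfl fun a ha => ?_
  have ha' := Finset.mem_range.1 ha
  rw [Yc_dact, Zc_dact_lt _ _ _ _ _ _ (by omega)]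
  have e : l ^ (i + s) = l ^ (i + s - a) * l ^ a := by
    rw [← pow_add]
    congr 1
    omega
  rw [e]
  ring

theorem ws_origin : (fun a => dact (ws m N i q t) l w (Fin.castAdd 2 a, 0)) =
    fun a => w (Fin.castAdd 2 a, 0) := by
  funext a
  simp only [dact]
  rw [ws_of_ne _ _ _ _ (castAdd_ne _ _)]
  simp

end semi

end Pool.Agent.K6.H7.UE
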