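import Pool.Agent.K6.H7.UE.JetA

set_option autoImplicit false

/-! # The part `ord y = i`: removing the equations -/

namespace Pool.Agent.K6.H7.UE

open MvPolynomial Pool.Agent.W428.MOT
open Pool.Agent.W375.MG (JetG constr_W)
open Pool.Agent.Y229.MS (Tl addyz Wyz Yi CE)
open Pool.Agent.Y366.MS

variable {k : Type} [Field k] {n m N : ℕ} {f : MvPolynomial (Fin n) k}
  {g : MvPolynomial (Fin m) k} {W : Set (Pt k (Fin m))} {β : Fin n → Option (Fin m)}

/-- the set of the leading coefficient -/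
def E1 (e : k) : Set (AlgebraicClosure k) := {algebraMap k _ e}

theorem EE_stable (e : k) {i q s : ℕ} (hN : N = i + q) (hs : s ≤ q) {l : AlgebraicClosure k}
    (hl : l ^ N = 1) {a : AlgebraicClosure k} (ha : a ∈ EE (E1 e) q s) :
    l ^ (i + s) * a ∈ EE (E1 e) q s := by
  by_cases h : s < q
  · rw [EE_lt _ _ _ h, Set.mem_singleton_iff] at ha ⊢
    rw [ha, mul_zero]
  · have h1 : s = q := by omega
    subst h1
    rw [← hN, hl, one_mul]
    exact ha

/-- the intermediate sets -/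
def Sr (g : MvPolynomial (Fin m) k) (W : Set (Pt k (Fin m))) (e : k) (i q t : ℕ) :
    Set (Pt k (Fin (m + 2) × Fin (N + 1))) :=
  {w | w ∈ Base g W i ∧ Zc w 0 = 0 ∧ hh g i 0 w ∈ EE (E1 e) q 0 ∧
    ∀ s < q + 1, 0 < s → (if s < t then hh g i s w else Zc w s) ∈ EE (E1 e) q s}

theorem constr_Sr (hW : Constr W) (e : k) (i q t : ℕ) :
    Constr (Sr (N := N) g W e i q t) := by
  unfold Sr
  refine Constr.and (constr_Base g hW i) (Constr.and (Constr.eqz (isPF_Zc 0))
    (Constr.and (ce_EE (ce_one e) q 0 _ (isPF_hh g i 0)) (Constr.allLt _ fun s _ =>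
      Constr.imp' fun _ => ?_)))
  split_ifs with h
  · exact ce_EE (ce_one e) q s _ (isPF_hh g i s)
  · exact ce_EE (ce_one e) q s _ (isPF_Zc s)

theorem Sr_top (e : k) (i q : ℕ) (hi : 0 < i) (hN : N = i + q) :
    JetG (addyz g) (Wo W) (E1 e) N ∩ Yi m i N = Sr g W e i q (q + 1) := by
  have h0 : JetG (addyz g) (Wo W) (E1 e) N ∩ Yi m i N =
      (JetG (addyz g) (Wyz W) (E1 e) N ∩ Yi m i N) ∩ {w | Zc w 0 = 0} := by
    ext w
    constructor
    · rintro ⟨⟨⟨h1, h2, h3⟩, h4⟩, h5⟩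
      refine ⟨⟨⟨h1, h4⟩, h5⟩, ?_⟩
      change Zc w 0 = 0
      rw [Zc_of_lt w 0 (by omega)]
      exact h3
    · rintro ⟨⟨⟨h1, h4⟩, h5⟩, h6⟩
      refine ⟨⟨⟨h1, h5.1 0 hi, ?_⟩, h4⟩, h5⟩
      change Zc w 0 = 0 at h6
      rw [Zc_of_lt w 0 (by omega)] at h6
      exact h6
  rw [h0, St_top g W (E1 e) i q hN]
  ext w
  constructor
  · rintro ⟨⟨h1, h2⟩, h3⟩
    refine ⟨h1, h3, ?_, fun s hs _ => h2 s hs⟩
    have := h2 0 (by omega)
    rwa [if_pos (by omega)] at this
  · rintro ⟨h1, h3, h4, h5⟩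
    refine ⟨⟨h1, fun s hs => ?_⟩, h3⟩
    rcases Nat.eq_zero_or_pos s with rfl | h6
    · rw [if_pos (by omega)]
      exact h4
    · exact h5 s hs h6

theorem Sr_base (h : Fam f g W β) (e : k) (i q t : ℕ) (hi : 0 < i) :
    ∀ z ∈ Sr (N := N) g W e i q t, aeval (cbase (jbb (bo β) N) z) f = 0 := by
  intro z hz
  rw [cbase_jbb, cbase_bo]
  refine h.base _ hz.1.1 ?_
  have h1 := hz.1.2.1 0 hi
  unfold Fc at h1
  have h2 : (fun a => arc z (Fin.castAdd 2 a)) =
      arc (Pool.Agent.Y971.MS.fg N z) := rfl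
  rw [h2, coeff_zero_arc] at h1
  exact h1

theorem jbb_inv_ws (i q t : ℕ) (ii : Fin n) (j : Fin (m + 2) × Fin (N + 1))
    (hj : jbb (bo β) N ii = some j) : ws m N i q t j = 0 := by
  unfold jbb bo at hj
  rw [Option.map_map, Option.map_eq_some_iff] at hj
  obtain ⟨a, -, rfl⟩ := hj
  change ws m N i q t (Fin.castAdd 2 a, 0) = 0
  rw [ws_of_ne _ _ _ _ (castAdd_ne _ _)]
  rfl

theorem valid_Sr (h : Fam f g W β) (e : k) (i q t : ℕ) (hi : 0 < i) (hN : N = i + q)
    (ht : 0 < t) : Valid f (Sr (N := N) g W e i q t) (ws m N i q t) N (jbb (bo β) N) where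
  constr := constr_Sr h.constr e i q t
  pos := by omega
  stable := fun l hl z hz => by
    have hl0 : l ≠ 0 := ne_zero_of_pow (by omega) hl
    obtain ⟨⟨a1, a2, a3, a4⟩, b1, b2, b3⟩ := hz
    refine ⟨⟨?_, ?_, ?_, ?_⟩, ?_, ?_, ?_⟩
    · rw [ws_origin]
      exact a1
    · intro j hj
      rw [Fc_dact, a2 j hj, mul_zero]
    · intro j hj
      rw [Yc_dact, a3 j hj, mul_zero]
    · rw [Yc_dact]
      exact mul_ne_zero (pow_ne_zero _ hl0) a4
    · rw [Zc_dact_lt _ _ _ _ _ _ ht, b1, mul_zero]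
    · rw [hh_dact _ _ _ _ _ _ ht]
      exact EE_stable e hN (Nat.zero_le _) hl b2
    · intro s hs hs0
      have := b3 s hs hs0
      by_cases hst : s < t
      · rw [if_pos hst] at this ⊢
        rw [hh_dact _ _ _ _ _ _ hst]
        exact EE_stable e hN (by omega) hl this
      · rw [if_neg hst] at this ⊢
        rw [Zc_dact_mem _ _ _ _ _ _ (by omega) (by omega)]
        exact EE_stable e hN (by omega) hl this
  base := Sr_base h e i q t hi
  inv := jbb_inv_ws i q t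

theorem Sr_step {R : Type} [CommRing R] (M : EMeas f R) (h : Fam f g W β) (e : k)
    (i q t : ℕ) (hi : 0 < i) (hN : N = i + q) (ht0 : 0 < t) (ht : t ≤ q) :
    M.χ _ (Sr (N := N) g W e i q (t + 1)) (ws m N i q (t + 1)) N (jbb (bo β) N) =
      M.χ _ (Sr (N := N) g W e i q t) (ws m N i q t) N (jbb (bo β) N) := by
  classical
  have htN : t < N + 1 := by omega
  refine Pool.Agent.W366.MESub.main M _ _ (ws m N i q (t + 1)) (ws m N i q t) N (jbb (bo β) N)
    (Fin.natAdd m 1, (⟨t, htN⟩ : Fin (N + 1))) (fun w => Yc w i)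
    (fun w => Pool.Agent.Y366.MS.bb g i t w) (valid_Sr h e i q (t + 1) hi hN (by omega))
    (valid_Sr h e i q t hi hN ht0) ?_ ?_ (isPF_Yc i) (isPF_bb g i t) (fun z w => Yc_upd _ _ _ _)
    (fun z w => bb_upd _ _ _ _ _ _ le_rfl) ?_ ?_ (fun z hz => hz.1.2.2.2)
    (fun z hz => hz.1.2.2.2) ?_
  · rintro ⟨a, j⟩ hj
    unfold ws
    by_cases ha : a = Fin.natAdd m 1
    · have hjt : (j : ℕ) ≠ t := fun h' => hj (Prod.ext ha (Fin.ext h'))
      simp only [ha, true_and]
      by_cases h1 : t ≤ (j : ℕ) ∧ (j : ℕ) ≤ q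
      · rw [if_pos h1, if_pos ⟨by omega, h1.2⟩]
      · rw [if_neg h1, if_neg (by omega)]
    · rw [if_neg fun h' => ha h'.1, if_neg fun h' => ha h'.1]
  · intro j hj
    unfold jbb bo at hj
    rw [Option.map_map, Option.map_eq_some_iff] at hj
    obtain ⟨a, -, h1⟩ := hj
    exact castAdd_ne _ _ (Prod.ext_iff.1 h1).1
  · intro l hl z
    rw [Yc_dact, ws_mem _ _ _ _ (le_refl t) ht, ws_lt _ _ _ _ _ (Nat.lt_succ_self t)]
    congr 1
    push_cast
    rw [add_sub_cancel_right, zpow_natCast]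
  · intro l hl z
    rw [bb_dact _ _ _ _ _ _ (Nat.le_succ t), ws_mem _ _ _ _ (le_refl t) ht, zpow_natCast]
  · intro w _
    have hZ : w (Fin.natAdd m 1, (⟨t, htN⟩ : Fin (N + 1))) = Zc w t := (Zc_of_lt w t htN).symm
    rw [hZ, ← hh_eq]
    unfold Sr
    simp only [Set.mem_ofPred_eq, Base_upd]
    rw [Zc_upd _ _ _ _ (by simp only; omega), hh_upd _ _ _ _ _ _ (by simp only; exact ht0)]
    refine and_congr_right fun _ => and_congr_right fun _ => and_congr_right fun _ =>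
      forall₂_congr fun s _ => forall_congr' fun _ => ?_
    rcases lt_trichotomy s t with h | h | h
    · rw [if_pos (by omega), if_pos h, hh_upd _ _ _ _ _ _ h]
    · subst h
      rw [if_pos (by omega), if_neg (lt_irrefl _)]
      have := Zc_upd_self w ⟨s, htN⟩ (hh g i s w)
      simp only at this
      rw [this]
    · rw [if_neg (by omega), if_neg (by omega), Zc_upd _ _ _ _ (by simp only; omega)]

theorem Sr_all {R : Type} [CommRing R] (M : EMeas f R) (h : Fam f g W β) (e : k)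
    (i q : ℕ) (hi : 0 < i) (hN : N = i + q) :
    ∀ t ≤ q, M.χ _ (Sr (N := N) g W e i q (t + 1)) (ws m N i q (t + 1)) N (jbb (bo β) N) =
      M.χ _ (Sr (N := N) g W e i q 1) (ws m N i q 1) N (jbb (bo β) N) := by
  intro t
  induction t with
  | zero => intro _; rfl
  | succ t ih =>
    intro ht
    rw [Sr_step M h e i q (t + 1) hi hN (by omega) ht, ih (by omega)]

end Pool.Agent.K6.H7.UE
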