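import Pool.Agent.K6.H7.UE.JetB

set_option autoImplicit false

/-! # The part `ord y = i`: the product; the part `y = 0`; the sum -/

namespace Pool.Agent.K6.H7.UE

open MvPolynomial Pool.Agent.W428.MOT
open Pool.Agent.W375.MG (JetG constr_W)
open Pool.Agent.Y229.MS (Tl addyz Wyz Yi CE)
open Pool.Agent.Y366.MS

variable {k : Type} [Field k] {n m N : ℕ} {f : MvPolynomial (Fin n) k}
  {g : MvPolynomial (Fin m) k} {W : Set (Pt k (Fin m))} {β : Fin n → Option (Fin m)}

/-- the conditions without `y_i ≠ 0` -/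
def Sg (g : MvPolynomial (Fin m) k) (W : Set (Pt k (Fin m))) (e : k) (i q : ℕ) :
    Set (Pt k (Fin (m + 2) × Fin (N + 1))) :=
  {w | (fun a => w (Fin.castAdd 2 a, 0)) ∈ W ∧ (∀ j < i, Fc g w j = 0) ∧
    Fc g w i ∈ EE (E1 e) q 0 ∧ (∀ j < i, Yc w j = 0) ∧ Zc w 0 = 0 ∧
    ∀ s < q + 1, 0 < s → Zc w s ∈ EE (E1 e) q s}

/-- the remaining jets of `g` -/
def Tq (g : MvPolynomial (Fin m) k) (W : Set (Pt k (Fin m))) (e : k) (i q N : ℕ) :
    Set (Pt k (Fin m × Fin (N + 1))) :=
  {z | (fun i => z (i, 0)) ∈ W ∧ (∀ j < i, PowerSeries.coeff j (aeval (arc z) g) = 0) ∧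
    PowerSeries.coeff i (aeval (arc z) g) ∈ EE (E1 e) q 0}

theorem Tq_zero (e : k) : Tq g W e N 0 N = JetG g W (E1 e) N := rfl

theorem Tq_pos (e : k) (i q : ℕ) (hq : 0 < q) : Tq g W e i q N = Tl g W (i + 1) N := by
  ext z
  simp only [Tq, Tl, Set.mem_ofPred_eq]
  rw [EE_lt _ _ _ hq, Set.mem_singleton_iff]
  refine and_congr_right fun _ => ⟨?_, fun h => ⟨fun j hj => h j (by omega), h i (by omega)⟩⟩
  rintro ⟨h1, h2⟩ j hj
  rcases Nat.lt_succ_iff_lt_or_eq.1 hj with h | h
  · exact h1 j h
  · rw [h]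
    exact h2

theorem valid_Tq (h : Fam f g W β) (e : k) (i q : ℕ) (hi : 0 < i) (hN : N = i + q) :
    Valid f (Tq g W e i q N) (jw m N) N (jbb β N) where
  constr := by
    unfold Tq
    exact Constr.and (constr_W h.constr _ fun a => IsPF.coord _)
      (Constr.and (Constr.allLt _ fun j _ => Constr.eqz
        (IsPA.aeval (fun i z => arc z i) (fun i => isPA_arc i) g j))
        (ce_EE (ce_one e) q 0 _ (IsPA.aeval (fun i z => arc z i) (fun i => isPA_arc i) g i)))
  pos := by omega
  stable := fun l hl z hz => by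
    refine ⟨?_, fun j hj => ?_, ?_⟩
    · rw [jw_zero]
      exact hz.1
    · rw [coeff_jw, hz.2.1 j hj, mul_zero]
    · rw [coeff_jw]
      have := EE_stable e hN (Nat.zero_le _) hl hz.2.2
      rwa [add_zero] at this
  base := fun z hz => by
    rw [cbase_jbb]
    refine h.base _ hz.1 ?_
    rw [← coeff_zero_arc]
    exact hz.2.1 0 hi
  inv := fun i j hj => by
    unfold jbb at hj
    rw [Option.map_eq_some_iff] at hj
    obtain ⟨a, -, rfl⟩ := hj
    rfl

theorem valid_Sg (h : Fam f g W β) (e : k) (i q : ℕ) (hi : 0 < i) (hN : N = i + q) :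
    Valid f (Sg (N := N) g W e i q) (ws m N i q 1) N (jbb (bo β) N) where
  constr := by
    unfold Sg
    exact Constr.and (constr_W h.constr _ fun a => IsPF.coord _)
      (Constr.and (Constr.allLt _ fun j _ => Constr.eqz (isPF_Fc g j))
        (Constr.and (ce_EE (ce_one e) q 0 _ (isPF_Fc g i))
          (Constr.and (Constr.allLt _ fun j _ => Constr.eqz (isPF_Yc j))
            (Constr.and (Constr.eqz (isPF_Zc 0)) (Constr.allLt _ fun s _ =>
              Constr.imp' fun _ => ce_EE (ce_one e) q s _ (isPF_Zc s))))))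
  pos := by omega
  stable := fun l hl z hz => by
    obtain ⟨a1, a2, a3, a4, b1, b2⟩ := hz
    refine ⟨?_, ?_, ?_, ?_, ?_, ?_⟩
    · rw [ws_origin]
      exact a1
    · intro j hj
      rw [Fc_dact, a2 j hj, mul_zero]
    · rw [Fc_dact]
      have := EE_stable e hN (Nat.zero_le _) hl a3
      rwa [add_zero] at this
    · intro j hj
      rw [Yc_dact, a4 j hj, mul_zero]
    · rw [Zc_dact_lt _ _ _ _ _ _ one_pos, b1, mul_zero]
    · intro s hs hs0
      rw [Zc_dact_mem _ _ _ _ _ _ (by omega) (by omega)]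
      exact EE_stable e hN (by omega) hl (b2 s hs hs0)
  base := fun z hz => by
    rw [cbase_jbb, cbase_bo]
    refine h.base _ hz.1 ?_
    have h1 := hz.2.1 0 hi
    unfold Fc at h1
    have h2 : (fun a => arc z (Fin.castAdd 2 a)) = arc (Pool.Agent.Y971.MS.fg N z) := rfl
    rw [h2, coeff_zero_arc] at h1
    exact h1
  inv := jbb_inv_ws i q 1

theorem Sr_one (e : k) (i q : ℕ) (hN : N = i + q) :
    Sr (N := N) g W e i q 1 = Sg g W e i q ∩ {z | ∀ p ∈ ({(Fin.natAdd m 0, ⟨i, by omega⟩)} :
      Finset (Fin (m + 2) × Fin (N + 1))), z p ≠ 0} := by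
  have hh0 : ∀ w : Pt k (Fin (m + 2) × Fin (N + 1)), Zc w 0 = 0 → hh g i 0 w = Fc g w i := by
    intro w hw
    unfold hh
    rw [zero_add, Finset.sum_range_one, hw, mul_zero, add_zero, add_zero]
  ext w
  simp only [Finset.mem_singleton, forall_eq, Set.mem_inter_iff]
  constructor
  · rintro ⟨⟨a1, a2, a3, a4⟩, b1, b2, b3⟩
    rw [hh0 w b1] at b2
    rw [Yc_of_lt w i (by omega)] at a4
    refine ⟨⟨a1, a2, b2, a3, b1, fun s hs hs0 => ?_⟩, a4⟩
    have := b3 s hs hs0
    rwa [if_neg (by omega)] at this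
  · rintro ⟨⟨a1, a2, b2, a3, b1, b3⟩, a4⟩
    refine ⟨⟨a1, a2, a3, ?_⟩, b1, ?_, fun s hs hs0 => ?_⟩
    · rw [Yc_of_lt w i (by omega)]
      exact a4
    · rw [hh0 w b1]
      exact b2
    · rw [if_neg (by omega)]
      exact b3 s hs hs0

theorem Sg_free (e : k) (i q : ℕ) (hN : N = i + q) (z w : Pt k (Fin (m + 2) × Fin (N + 1)))
    (h : ∀ p, p ∉ ({(Fin.natAdd m 0, ⟨i, by omega⟩)} : Finset (Fin (m + 2) × Fin (N + 1))) →
      p ∉ F1 m N i q → w p = z p) (hz : z ∈ Sg g W e i q) : w ∈ Sg g W e i q := by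
  obtain ⟨h1, h2, h3, h4, h5, h6⟩ := hz
  have hx : ∀ a j, w (Fin.castAdd 2 a, j) = z (Fin.castAdd 2 a, j) := by
    intro a j
    apply h
    · rw [Finset.mem_singleton]
      intro h'
      exact castAdd_ne _ _ (Prod.ext_iff.1 h').1
    · rw [mem_F1]
      rintro (⟨h', -⟩ | ⟨h', -⟩)
      · exact castAdd_ne _ _ h'
      · exact castAdd_ne _ _ h'
  have hz' : ∀ s, s ≤ q → Zc w s = Zc z s := by
    intro s hs
    rw [Zc_of_lt _ _ (by omega), Zc_of_lt _ _ (by omega)]
    apply h
    · rw [Finset.mem_singleton]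
      intro h'
      exact natAdd01 (Prod.ext_iff.1 h').1.symm
    · rw [mem_F1]
      rintro (⟨h', -⟩ | ⟨-, h'⟩)
      · exact natAdd01 h'.symm
      · simp only at h'
        omega
  refine ⟨?_, ?_, ?_, ?_, ?_, ?_⟩
  · simp only [hx]
    exact h1
  · intro j hj
    rw [Fc_congr g w z hx]
    exact h2 j hj
  · rw [Fc_congr g w z hx]
    exact h3
  · intro j hj
    have := h4 j hj
    rw [Yc_of_lt _ _ (by omega)] at this ⊢
    rw [h _ ?_ ?_, this]
    · rw [Finset.mem_singleton]
      intro h'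
      have := congrArg Fin.val (Prod.ext_iff.1 h').2
      simp only at this
      omega
    · rw [mem_F1]
      rintro (⟨-, h'⟩ | ⟨h', -⟩)
      · simp only at h'
        omega
      · exact natAdd01 h'
  · rw [hz' 0 (Nat.zero_le _)]
    exact h5
  · intro s hs hs0
    rw [hz' s (by omega)]
    exact h6 s hs hs0

/-- append `y = 0`, `z = e t ^ q` (or `z = 0` if `q = 0`) -/
noncomputable def apE (e : k) (q N : ℕ) (z : Pt k (Fin m × Fin (N + 1))) :
    Pt k (Fin (m + 2) × Fin (N + 1)) :=
  fun p => Fin.addCases (fun i => z (i, p.2))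
    (fun b : Fin 2 => if b = 1 ∧ (p.2 : ℕ) = q ∧ 0 < q then algebraMap k _ e else 0) p.1

theorem apE_cast (e : k) (q : ℕ) (z : Pt k (Fin m × Fin (N + 1))) (i : Fin m) (j : Fin (N + 1)) :
    apE e q N z (Fin.castAdd 2 i, j) = z (i, j) := by
  simp [apE]

theorem apE_nat (e : k) (q : ℕ) (z : Pt k (Fin m × Fin (N + 1))) (b : Fin 2) (j : Fin (N + 1)) :
    apE e q N z (Fin.natAdd m b, j) =
      if b = 1 ∧ (j : ℕ) = q ∧ 0 < q then algebraMap k _ e else 0 := by
  simp only [apE, Fin.addCases_right]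

theorem onea {R : Type} [CommRing R] (M : EMeas f R) (h : Fam f g W β) (e : k)
    (i q : ℕ) (hi : 0 < i) (hN : N = i + q) :
    M.χ _ (JetG (addyz g) (Wo W) (E1 e) N ∩ Yi m i N) (jw (m + 2) N) N (jbb (bo β) N) =
      M.χ _ (Tq g W e i q N) (jw m N) N (jbb β N) * (M.L - 1) * M.L ^ N := by
  classical
  have hi1 : i < N + 1 := by omega
  have hq1 : q < N + 1 := by omega
  rw [Sr_top e i q hi hN, ← ws_self i q, Sr_all M h e i q hi hN q le_rfl, Sr_one e i q hN]
  set F0 : Finset (Fin (m + 2) × Fin (N + 1)) := {(Fin.natAdd m 0, ⟨i, by omega⟩)} with hF0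
  have hd : Disjoint F0 (F1 m N i q) := by
    rw [Finset.disjoint_left]
    intro p hp hp'
    rw [hF0, Finset.mem_singleton] at hp
    rw [mem_F1, hp] at hp'
    rcases hp' with ⟨-, h'⟩ | ⟨h', -⟩
    · simp only at h'
      omega
    · exact natAdd01 h'
  have hnF : ∀ (a : Fin m) (j : Fin (N + 1)), (Fin.castAdd 2 a, j) ∉ F0 ∧
      (Fin.castAdd 2 a, j) ∉ F1 m N i q := by
    intro a j
    constructor
    · rw [hF0, Finset.mem_singleton]
      intro h'
      exact castAdd_ne _ _ (Prod.ext_iff.1 h').1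
    · rw [mem_F1]
      rintro (⟨h', -⟩ | ⟨h', -⟩)
      · exact castAdd_ne _ _ h'
      · exact castAdd_ne _ _ h'
  have hfree := Pool.Agent.W230.ME.Free.main M (Sg g W e i q) (ws m N i q 1) N (jbb (bo β) N)
    F0 (F1 m N i q) (fun _ => 0) hd (valid_Sg h e i q hi hN) (by
      intro ii j hj
      unfold jbb bo at hj
      rw [Option.map_map, Option.map_eq_some_iff] at hj
      obtain ⟨a, -, rfl⟩ := hj
      exact hnF a 0) (fun z w => Sg_free e i q hN z w)
  rw [hfree, card_F1 i q hN, hF0, Finset.card_singleton, pow_one, ← hF0]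
  congr 2
  set T0 : Set (Pt k (Fin (m + 2) × Fin (N + 1))) :=
    {z | ∀ p ∈ F0 ∪ F1 m N i q, z p = algebraMap k _ 0} with hT0
  set ρ : Fin (m + 2) × Fin (N + 1) → ℤ := fun p => if p ∈ F0 ∪ F1 m N i q then 0 else
    ws m N i q 1 p with hρ
  have hρc : ∀ a j, ρ (Fin.castAdd 2 a, j) = (j : ℕ) := by
    intro a j
    rw [hρ]
    beta_reduce
    rw [if_neg (fun h' => (Finset.mem_union.1 h').elim (hnF a j).1 (hnF a j).2),
      ws_of_ne _ _ _ _ (castAdd_ne _ _)]
  have hv : Valid f (Sg g W e i q ∩ T0) ρ N (jbb (bo β) N) :=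
    { constr := (valid_Sg h e i q hi hN).constr.inter (Constr.ballFinset _ fun p _ =>
        Constr.eq (IsPF.coord _) (IsPF.const _))
      pos := by omega
      stable := fun l hl z hz => by
        have hz0 : ∀ p ∈ F0 ∪ F1 m N i q, z p = 0 := fun p hp => by
          have := hz.2 p hp
          rwa [map_zero] at this
        have e1 : dact ρ l z = dact (ws m N i q 1) l z := by
          funext p
          simp only [dact]
          by_cases hp : p ∈ F0 ∪ F1 m N i q
          · rw [hz0 p hp, mul_zero, mul_zero]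
          · rw [hρ]
            beta_reduce
            rw [if_neg hp]
        rw [e1]
        refine ⟨(valid_Sg h e i q hi hN).stable l hl z hz.1, fun p hp => ?_⟩
        simp only [dact]
        rw [hz0 p hp, mul_zero, map_zero]
      base := fun z hz => (valid_Sg h e i q hi hN).base z hz.1
      inv := fun ii j hj => by
        unfold jbb bo at hj
        rw [Option.map_map, Option.map_eq_some_iff] at hj
        obtain ⟨a, -, rfl⟩ := hj
        exact hρc a 0 }
  have hFcE : ∀ (z : Pt k (Fin m × Fin (N + 1))) (j : ℕ), Fc g (apE e q N z) j =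
      PowerSeries.coeff j (aeval (arc z) g) := by
    intro z j
    unfold Fc
    congr 3
    funext a
    ext s
    simp only [arc, PowerSeries.coeff_mk, apE_cast]
  refine M.iso _ _ ρ (jw m N) N N (jbb (bo β) N) (jbb β N) hv (valid_Tq h e i q hi hN)
    (Pool.Agent.Y971.MS.fg N) (apE e q N) (regularOn_poly (fun p => IsPF.coord _) _)
    (regularOn_poly (fun p => ?_) _) ?_ ?_ ?_ ?_ ?_ ?_
  · obtain ⟨a, j⟩ := p
    refine Fin.addCases (fun a => ?_) (fun b => ?_) a
    · simp only [apE_cast]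
      exact IsPF.coord _
    · simp only [apE_nat]
      split_ifs
      · exact IsPF.const _
      · exact IsPF.zero
  · rintro w ⟨⟨h1, h2, h3, -⟩, -⟩
    exact ⟨h1, h2, h3⟩
  · rintro z ⟨h1, h2, h3⟩
    refine ⟨⟨?_, ?_, ?_, ?_, ?_, ?_⟩, ?_⟩
    · simp only [apE_cast]
      exact h1
    · intro j hj
      rw [hFcE]
      exact h2 j hj
    · rw [hFcE]
      exact h3
    · intro j hj
      rw [Yc_of_lt _ _ (by omega), apE_nat, if_neg]
      rintro ⟨h', -⟩
      exact absurd h' (by decide)
    · rw [Zc_of_lt _ _ (by omega), apE_nat, if_neg]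
      simp only
      omega
    · intro s hs hs0
      rw [Zc_of_lt _ _ (by omega), apE_nat]
      by_cases hsq : s = q
      · rw [if_pos ⟨rfl, hsq, by omega⟩, hsq, EE_self]
        rfl
      · rw [if_neg (fun h' => hsq h'.2.1), EE_lt _ _ _ (by omega)]
        rfl
    · intro p hp
      rw [map_zero]
      obtain ⟨a, j⟩ := p
      rcases Finset.mem_union.1 hp with hp | hp
      · rw [hF0, Finset.mem_singleton] at hp
        rw [hp, apE_nat, if_neg]
        rintro ⟨h', -⟩
        exact absurd h' (by decide)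
      · rcases (mem_F1 i q _).1 hp with ⟨h', h''⟩ | ⟨h', h''⟩
        · simp only at h'
          rw [h', apE_nat, if_neg]
          rintro ⟨h', -⟩
          exact absurd h' (by decide)
        · simp only at h' h''
          rw [h', apE_nat, if_neg]
          rintro ⟨-, h', -⟩
          omega
  · rintro w ⟨⟨h1, h2, h3, h4, h5, h6⟩, h7⟩
    funext p
    obtain ⟨a, j⟩ := p
    refine Fin.addCases (fun a => ?_) (fun b => ?_) a
    · rw [apE_cast]
      rfl
    · rw [apE_nat]
      have hb : b = 0 ∨ b = 1 := by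
        rcases b with ⟨b, hb⟩
        have : b = 0 ∨ b = 1 := by omega
        rcases this with rfl | rfl
        · left; rfl
        · right; rfl
      rcases hb with rfl | rfl
      · rw [if_neg (by rintro ⟨h', -⟩; exact absurd h' (by decide))]
        rcases lt_trichotomy (j : ℕ) i with hj | hj | hj
        · have := h4 _ hj
          rw [Yc_of_lt _ _ j.2] at this
          exact this.symm
        · have : (Fin.natAdd m 0, j) ∈ F0 := by
            rw [hF0, Finset.mem_singleton]
            exact Prod.ext rfl (Fin.ext hj)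
          rw [h7 _ (Finset.mem_union_left _ this), map_zero]
        · have : (Fin.natAdd m 0, j) ∈ F1 m N i q := (mem_F1 i q _).2 (Or.inl ⟨rfl, hj⟩)
          rw [h7 _ (Finset.mem_union_right _ this), map_zero]
      · rcases Nat.eq_zero_or_pos (j : ℕ) with hj0 | hj0
        · rw [if_neg (by omega)]
          rw [Zc_of_lt _ _ (by omega)] at h5
          have : j = ⟨0, by omega⟩ := Fin.ext hj0
          rw [this]
          exact h5.symm
        · rcases lt_trichotomy (j : ℕ) q with hj | hj | hj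
          · rw [if_neg (by omega)]
            have := h6 _ (by omega : (j : ℕ) < q + 1) hj0
            rw [Zc_of_lt _ _ j.2, EE_lt _ _ _ hj] at this
            exact (Set.mem_singleton_iff.1 this).symm
          · rw [if_pos ⟨rfl, hj, by omega⟩]
            have := h6 _ (by omega : (j : ℕ) < q + 1) hj0
            have h8 : EE (E1 e) q (j : ℕ) = E1 e := by rw [hj, EE_self]
            rw [Zc_of_lt _ _ j.2, h8] at this
            exact (Set.mem_singleton_iff.1 this).symm
          · rw [if_neg (by omega)]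
            have : (Fin.natAdd m 1, j) ∈ F1 m N i q := (mem_F1 i q _).2 (Or.inr ⟨rfl, hj⟩)
            rw [h7 _ (Finset.mem_union_right _ this), map_zero]
  · rintro z -
    funext p
    exact apE_cast e q z p.1 p.2
  · rintro w -
    rw [cbase_jbb, cbase_jbb, cbase_bo]
    rfl
  · intro l hl w hw
    funext p
    change dact ρ (l ^ N) w (Fin.castAdd 2 p.1, p.2) =
      (l ^ N) ^ jw m N p * w (Fin.castAdd 2 p.1, p.2)
    simp only [dact]
    rw [hρc]
    rfl

end Pool.Agent.K6.H7.UE
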