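import Pool.Agent.K6.H7.UE.JetC

set_option autoImplicit false

/-! # The part `y = 0`; the sum; one more coefficient -/

namespace Pool.Agent.K6.H7.UE

open MvPolynomial Pool.Agent.W428.MOT
open Pool.Agent.W375.MG (JetG constr_W)
open Pool.Agent.Y229.MS (Tl addyz Wyz Yi CE)
open Pool.Agent.Y366.MS (natAdd01 castAdd_ne constr_Tl)
open Pool.Agent.Y971.MS (fg ap ap_cast ap_nat aeval_y0)

variable {k : Type} [Field k] {n m N : ℕ} {f : MvPolynomial (Fin n) k}
  {g : MvPolynomial (Fin m) k} {W : Set (Pt k (Fin m))} {β : Fin n → Option (Fin m)}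

theorem mem_y0 (E : Set (AlgebraicClosure k)) (z : Pt k (Fin (m + 2) × Fin (N + 1)))
    (h : ∀ j, z (Fin.natAdd m 0, j) = 0) :
    z ∈ JetG (addyz g) (Wo W) E N ↔ fg N z ∈ JetG g W E N ∧ z (Fin.natAdd m 1, 0) = 0 := by
  unfold JetG Wo
  simp only [Set.mem_ofPred_eq]
  rw [aeval_y0 g z h]
  constructor
  · rintro ⟨⟨h1, -, h2⟩, h3, h4⟩
    exact ⟨⟨h1, h3, h4⟩, h2⟩
  · rintro ⟨⟨h1, h3, h4⟩, h2⟩
    exact ⟨⟨h1, h 0, h2⟩, h3, h4⟩

/-- the part `y = 0` -/
theorem oneb {R : Type} [CommRing R] (M : EMeas f R) (h : Fam f g W β) (e : k) (hN : 0 < N) :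
    M.χ _ (JetG (addyz g) (Wo W) (E1 e) N ∩ {w | ∀ j, w (Fin.natAdd m 0, j) = 0})
      (jw (m + 2) N) N (jbb (bo β) N) =
      M.χ _ (JetG g W (E1 e) N) (jw m N) N (jbb β N) * M.L ^ N := by
  classical
  set Y0 : Set (Pt k (Fin (m + 2) × Fin (N + 1))) := {w | ∀ j, w (Fin.natAdd m 0, j) = 0} with hY0
  have cY0 : Constr Y0 := Constr.all fun j => Constr.eqz (IsPF.coord _)
  have vJ := (h.addyz).valid_jet e hN
  have hst : ∀ l : AlgebraicClosure k, l ^ N = 1 → ∀ z ∈ JetG (addyz g) (Wo W) (E1 e) N ∩ Y0,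
      dact (jw (m + 2) N) l z ∈ JetG (addyz g) (Wo W) (E1 e) N ∩ Y0 := by
    intro l hl z hz
    refine ⟨vJ.stable l hl z hz.1, fun j => ?_⟩
    simp only [dact]
    rw [hz.2 j, mul_zero]
  have vY : Valid f (JetG (addyz g) (Wo W) (E1 e) N ∩ Y0) (jw (m + 2) N) N (jbb (bo β) N) :=
    { constr := vJ.constr.inter cY0
      pos := hN
      stable := hst
      base := fun z hz => vJ.base z hz.1
      inv := vJ.inv }
  set F1 : Finset (Fin (m + 2) × Fin (N + 1)) :=
    Finset.univ.filter fun p => p.1 = Fin.natAdd m 1 ∧ p.2 ≠ 0 with hF1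
  have hcard : F1.card = N := by
    have h1 : F1 = (Finset.univ : Finset (Fin N)).map
        ⟨fun j => (Fin.natAdd m 1, j.succ), fun a b h => by
          have := (Prod.ext_iff.1 h).2
          exact Fin.succ_injective _ this⟩ := by
      rw [hF1]
      ext p
      simp only [Finset.mem_filter, Finset.mem_univ, true_and, Finset.mem_map,
        Function.Embedding.coeFn_mk]
      constructor
      · rintro ⟨h1, h2⟩
        obtain ⟨j, hj⟩ := Fin.exists_succ_eq.2 h2
        exact ⟨j, Prod.ext h1.symm hj⟩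
      · rintro ⟨j, rfl⟩
        exact ⟨rfl, Fin.succ_ne_zero j⟩
    rw [h1, Finset.card_map, Finset.card_univ, Fintype.card_fin]
  have hnF : ∀ (a : Fin m) (j : Fin (N + 1)), (Fin.castAdd 2 a, j) ∉ F1 := by
    intro a j hp
    rw [hF1, Finset.mem_filter] at hp
    exact castAdd_ne _ _ hp.2.1
  have hfree := Pool.Agent.W230.ME.Free.main M (JetG (addyz g) (Wo W) (E1 e) N ∩ Y0)
    (jw (m + 2) N) N (jbb (bo β) N) ∅ F1 (fun _ => 0)
    (Finset.disjoint_empty_left _) vY (by
      intro ii j hj
      unfold jbb bo at hj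
      rw [Option.map_map, Option.map_eq_some_iff] at hj
      obtain ⟨a, -, rfl⟩ := hj
      exact ⟨Finset.notMem_empty _, hnF a 0⟩) (by
      intro z w hzw hz
      have hz0 : ∀ j, z (Fin.natAdd m 0, j) = 0 := hz.2
      have hne : ∀ (i : Fin (m + 2)) (j : Fin (N + 1)), i ≠ Fin.natAdd m 1 → w (i, j) = z (i, j) := by
        intro i j hi
        refine hzw (i, j) (by simp) ?_
        rw [hF1, Finset.mem_filter]
        rintro ⟨-, h', -⟩
        exact hi h'
      have hw0 : ∀ j, w (Fin.natAdd m 0, j) = 0 := by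
        intro j
        rw [hne _ j natAdd01, hz0 j]
      have hfg : fg N w = fg N z := by
        funext p
        exact hne _ p.2 (castAdd_ne _ _)
      have h1 := (mem_y0 (E1 e) z hz0).1 hz.1
      refine ⟨(mem_y0 (E1 e) w hw0).2 ⟨?_, ?_⟩, hw0⟩
      · rw [hfg]
        exact h1.1
      · rw [hzw _ (by simp) ?_]
        · exact h1.2
        · rw [hF1, Finset.mem_filter]
          rintro ⟨-, -, h'⟩
          exact h' rfl)
  simp only [Finset.notMem_empty, false_implies, implies_true, Set.ofPred_true, Set.inter_univ,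
    Finset.empty_union, map_zero, Finset.card_empty, pow_zero, mul_one] at hfree
  rw [hfree, hcard]
  congr 1
  set T0 : Set (Pt k (Fin (m + 2) × Fin (N + 1))) := {z | ∀ i ∈ F1, z i = 0} with hT0
  set ρ : Fin (m + 2) × Fin (N + 1) → ℤ := fun i => if i ∈ F1 then 0 else jw (m + 2) N i with hρ
  have hρc : ∀ a j, ρ (Fin.castAdd 2 a, j) = (j : ℕ) := by
    intro a j
    rw [hρ]
    beta_reduce
    rw [if_neg (hnF a j)]
    rfl
  have hv : Valid f (JetG (addyz g) (Wo W) (E1 e) N ∩ Y0 ∩ T0) ρ N (jbb (bo β) N) :=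
    { constr := vY.constr.inter (Constr.ballFinset _ fun p _ => Constr.eqz (IsPF.coord _))
      pos := hN
      stable := fun l hl z hz => by
        have e1 : dact ρ l z = dact (jw (m + 2) N) l z := by
          funext p
          simp only [dact]
          by_cases hp : p ∈ F1
          · rw [hz.2 p hp, mul_zero, mul_zero]
          · rw [hρ]
            beta_reduce
            rw [if_neg hp]
        rw [e1]
        refine ⟨hst l hl z hz.1, fun p hp => ?_⟩
        simp only [dact]
        rw [hz.2 p hp, mul_zero]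
      base := fun z hz => vY.base z hz.1
      inv := fun ii j hj => by
        unfold jbb bo at hj
        rw [Option.map_map, Option.map_eq_some_iff] at hj
        obtain ⟨a, -, rfl⟩ := hj
        exact hρc a 0 }
  refine M.iso _ _ ρ (jw m N) N N (jbb (bo β) N) (jbb β N) hv (h.valid_jet e hN) (fg N) (ap N)
    (regularOn_poly (fun p => IsPF.coord _) _)
    (regularOn_poly (fun p => ?_) _) ?_ ?_ ?_ ?_ ?_ ?_
  · obtain ⟨i, j⟩ := p
    refine Fin.addCases (fun i => ?_) (fun i => ?_) i
    · simp only [ap_cast]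
      exact IsPF.coord _
    · simp only [ap_nat]
      exact IsPF.zero
  · rintro z ⟨⟨h1, h2⟩, h3⟩
    exact ((mem_y0 (E1 e) z h2).1 h1).1
  · intro z hz
    have h0 : ∀ j, ap N z (Fin.natAdd m 0, j) = 0 := fun j => ap_nat N z 0 j
    have hfa : fg N (ap N z) = z := by
      funext p
      exact ap_cast N z p.1 p.2
    refine ⟨⟨?_, h0⟩, ?_⟩
    · rw [mem_y0 (E1 e) _ h0, hfa]
      exact ⟨hz, ap_nat N z 1 0⟩
    · intro p hp
      rw [hF1, Finset.mem_filter] at hp
      obtain ⟨i, j⟩ := p
      have := hp.2.1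
      simp only at this
      subst this
      exact ap_nat N z 1 j
  · rintro z ⟨⟨h1, h2⟩, h3⟩
    have h5 := ((mem_y0 (E1 e) z h2).1 h1).2
    funext p
    obtain ⟨i, j⟩ := p
    refine Fin.addCases (fun i => ?_) (fun i => ?_) i
    · rw [ap_cast]
      rfl
    · rw [ap_nat]
      have h4 : i = 0 ∨ i = 1 := by
        rcases i with ⟨i, hi⟩
        have : i = 0 ∨ i = 1 := by omega
        rcases this with rfl | rfl
        · left; rfl
        · right; rfl
      rcases h4 with rfl | rfl
      · exact (h2 j).symm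
      · by_cases hj : j = 0
        · rw [hj]
          exact h5.symm
        · exact (h3 (Fin.natAdd m 1, j) (by
            rw [hF1, Finset.mem_filter]
            exact ⟨Finset.mem_univ _, rfl, hj⟩)).symm
  · intro z _
    funext p
    exact ap_cast N z p.1 p.2
  · rintro w -
    rw [cbase_jbb, cbase_jbb, cbase_bo]
    rfl
  · intro l hl w hw
    funext p
    change dact ρ (l ^ N) w (Fin.castAdd 2 p.1, p.2) =
      (l ^ N) ^ jw m N p * w (Fin.castAdd 2 p.1, p.2)
    simp only [dact]
    rw [hρc]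
    rfl

/-- **The class of the jets of `g + y z`.** -/
theorem one {R : Type} [CommRing R] (M : EMeas f R) (h : Fam f g W β) (e : k) (hN : 0 < N) :
    M.χ _ (JetG (addyz g) (Wo W) (E1 e) N) (jw (m + 2) N) N (jbb (bo β) N) =
      M.χ _ (JetG g W (E1 e) N) (jw m N) N (jbb β N) * M.L ^ (N + 1) +
        (M.L - 1) * M.L ^ N *
          ∑ i ∈ Finset.range (N - 1), M.χ _ (Tl g W (i + 2) N) (jw m N) N (jbb β N) := by
  classical
  have vJ := (h.addyz).valid_jet e hN
  have cY : ∀ i : ℕ, Constr (Yi (K := k) m i N) := by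
    intro i
    unfold Yi
    exact (Constr.all fun j => Constr.imp' fun _ => Constr.eqz (IsPF.coord _)).and
      (Constr.all fun j => Constr.imp' fun _ => (Constr.eqz (IsPF.coord _)).not)
  set P : Option (Fin N) → Set (Pt k (Fin (m + 2) × Fin (N + 1))) :=
    fun a => Option.elim a {w | ∀ j, w (Fin.natAdd m 0, j) = 0}
        fun i : Fin N => Yi m ((i : ℕ) + 1) N with hP
  have hcov := Pool.Agent.W749.ME.EStC.χE_cover M (JetG (addyz g) (Wo W) (E1 e) N) P (jw (m + 2) N) N
    (jbb (bo β) N) vJ (by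
      intro a
      cases a with
      | none => exact Constr.all fun j => Constr.eqz (IsPF.coord _)
      | some i => exact cY _)
    (by
      intro a l hl z hz
      have hl0 : l ≠ 0 := ne_zero_of_pow hN hl
      cases a with
      | none =>
        intro j
        simp only [dact]
        rw [hz j, mul_zero]
      | some i =>
        refine ⟨fun j hj => ?_, fun j hj => ?_⟩
        · simp only [dact]
          rw [hz.1 j hj, mul_zero]
        · exact mul_ne_zero (zpow_ne_zero _ hl0) (hz.2 j hj))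
    (by
      intro a b hab
      rw [Set.disjoint_left]
      cases a with
      | none =>
        cases b with
        | none => exact absurd rfl hab
        | some b =>
          intro z hz hz'
          exact hz'.2 ⟨(b : ℕ) + 1, by have := b.2; omega⟩ rfl (hz _)
      | some a =>
        cases b with
        | none =>
          intro z hz hz'
          exact hz.2 ⟨(a : ℕ) + 1, by have := a.2; omega⟩ rfl (hz' _)
        | some b =>
          intro z hz hz'
          rcases lt_trichotomy (a : ℕ) (b : ℕ) with h1 | h1 | h1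
          · exact hz.2 ⟨(a : ℕ) + 1, by have := a.2; omega⟩ rfl (hz'.1 _ (by simp only; omega))
          · exact hab (by rw [Fin.ext h1])
          · exact hz'.2 ⟨(b : ℕ) + 1, by have := b.2; omega⟩ rfl (hz.1 _ (by simp only; omega)))
    (by
      intro z hzJ
      by_cases h0 : ∀ j, z (Fin.natAdd m 0, j) = 0
      · exact ⟨none, h0⟩
      · push Not at h0
        have hex : ∃ k' : ℕ, ∃ hk : k' < N + 1, z (Fin.natAdd m 0, ⟨k', hk⟩) ≠ 0 := by
          obtain ⟨j, hj⟩ := h0
          exact ⟨j, j.2, hj⟩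
        obtain ⟨hk, hne⟩ := Nat.find_spec hex
        have hpos : Nat.find hex ≠ 0 := by
          intro h1
          have h2 : z (Fin.natAdd m 0, 0) = 0 := hzJ.1.2.1
          have h3 : (⟨Nat.find hex, hk⟩ : Fin (N + 1)) = 0 := Fin.ext h1
          rw [h3] at hne
          exact hne h2
        refine ⟨some ⟨Nat.find hex - 1, by omega⟩, ?_, ?_⟩
        · intro j hj
          simp only at hj
          have := Nat.find_min hex (m := (j : ℕ)) (by omega)
          push Not at this
          exact this j.2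
        · intro j hj
          simp only at hj
          have e : j = ⟨Nat.find hex, hk⟩ := Fin.ext (by simp only; omega)
          rw [e]
          exact hne)
  rw [hcov, Fintype.sum_option]
  have h1 : ∀ i : Fin N, M.χ _ (JetG (addyz g) (Wo W) (E1 e) N ∩ P (some i)) (jw (m + 2) N) N
      (jbb (bo β) N) = M.χ _ (Tq g W e ((i : ℕ) + 1) (N - ((i : ℕ) + 1)) N) (jw m N) N (jbb β N) *
        (M.L - 1) * M.L ^ N := fun i =>
    onea M h e _ _ (Nat.succ_pos _) (by have := i.2; omega)
  rw [Finset.sum_congr rfl fun i _ => h1 i]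
  have h2 : M.χ _ (JetG (addyz g) (Wo W) (E1 e) N ∩ P none) (jw (m + 2) N) N (jbb (bo β) N) =
      M.χ _ (JetG g W (E1 e) N) (jw m N) N (jbb β N) * M.L ^ N := oneb M h e hN
  rw [h2]
  obtain ⟨N', rfl⟩ : ∃ N', N = N' + 1 := ⟨N - 1, by omega⟩
  rw [Fin.sum_univ_castSucc]
  have h3 : M.χ _ (Tq g W e (((Fin.last N' : Fin (N' + 1)) : ℕ) + 1)
      (N' + 1 - (((Fin.last N' : Fin (N' + 1)) : ℕ) + 1)) (N' + 1)) (jw m (N' + 1)) (N' + 1)
      (jbb β (N' + 1)) = M.χ _ (JetG g W (E1 e) (N' + 1)) (jw m (N' + 1)) (N' + 1)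
        (jbb β (N' + 1)) := by
    rw [Fin.val_last, Nat.sub_self, Tq_zero]
  rw [h3, Nat.add_sub_cancel, Finset.mul_sum, Finset.sum_range]
  have h4 : ∀ i : Fin N', M.χ _ (Tq g W e ((i.castSucc : ℕ) + 1)
      (N' + 1 - ((i.castSucc : ℕ) + 1)) (N' + 1)) (jw m (N' + 1)) (N' + 1)
      (jbb β (N' + 1)) * (M.L - 1) * M.L ^ (N' + 1) =
      (M.L - 1) * M.L ^ (N' + 1) * M.χ _ (Tl g W ((i : ℕ) + 2) (N' + 1)) (jw m (N' + 1)) (N' + 1)
        (jbb β (N' + 1)) := by
    intro i
    rw [Tq_pos e _ _ (by have := i.2; simp only [Fin.val_castSucc]; omega)]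
    simp only [Fin.val_castSucc]
    ring
  rw [Finset.sum_congr rfl fun i _ => h4 i]
  ring

/-! ### one more coefficient -/

open Pool.Agent.Y812.MS (Fl card_Fl rsl exl tl_free)

theorem two {R : Type} [CommRing R] (M : EMeas f R) (h : Fam f g W β) {i d : ℕ} (hi : 0 < i)
    (hiN : i ≤ N + 1) (hd : 0 < d) :
    M.χ _ (Tl g W i (N + 1)) (jw m (N + 1)) d (jbb β (N + 1)) =
      M.χ _ (Tl g W i N) (jw m N) d (jbb β N) * M.L ^ m := by
  classical
  have v1 := (h.gms_tl (N := N + 1) hi).valid hd
  have hnF : ∀ (a : Fin m), (a, (0 : Fin (N + 1 + 1))) ∉ Fl m N := by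
    intro a hp
    simp only [Fl, Finset.mem_filter, Finset.mem_univ, true_and] at hp
    simp at hp
  have e1 := Pool.Agent.W230.ME.Free.main M (Tl g W i (N + 1)) (jw m (N + 1)) d (jbb β (N + 1)) ∅
    (Fl m N) (fun _ => 0) (Finset.disjoint_empty_left _) v1 (by
      intro ii j hj
      unfold jbb at hj
      rw [Option.map_eq_some_iff] at hj
      obtain ⟨a, -, rfl⟩ := hj
      exact ⟨Finset.notMem_empty _, hnF a⟩)
    (fun z w h hz => tl_free g W i N hiN z w (fun p hp => h p (by simp) hp) hz)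
  simp only [Finset.notMem_empty, false_implies, implies_true, Set.ofPred_true, Set.inter_univ,
    Finset.empty_union, map_zero, Finset.card_empty, pow_zero, mul_one] at e1
  rw [e1, card_Fl]
  congr 1
  set T0 : Set (Pt k (Fin m × Fin (N + 1 + 1))) := {z | ∀ p ∈ Fl m N, z p = 0} with hT0
  set ρ : Fin m × Fin (N + 1 + 1) → ℤ := fun p => if p ∈ Fl m N then 0 else jw m (N + 1) p with hρ
  have hact : ∀ (l : AlgebraicClosure k), ∀ z ∈ T0, dact ρ l z = dact (jw m (N + 1)) l z := by
    intro l z hz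
    funext p
    simp only [dact]
    by_cases hp : p ∈ Fl m N
    · rw [hz p hp, mul_zero, mul_zero]
    · rw [hρ]
      beta_reduce
      rw [if_neg hp]
  have hv : Valid f (Tl g W i (N + 1) ∩ T0) ρ d (jbb β (N + 1)) :=
    { constr := v1.constr.inter (Constr.ballFinset _ fun p _ => Constr.eqz (IsPF.coord _))
      pos := hd
      stable := fun l hl z hz => by
        rw [hact l z hz.2]
        refine ⟨v1.stable l hl z hz.1, fun p hp => ?_⟩
        simp only [dact]
        rw [hz.2 p hp, mul_zero]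
      base := fun z hz => v1.base z hz.1
      inv := fun ii j hj => by
        unfold jbb at hj
        rw [Option.map_eq_some_iff] at hj
        obtain ⟨a, -, rfl⟩ := hj
        rw [hρ]
        beta_reduce
        rw [if_neg (hnF a)]
        rfl }
  refine M.iso _ _ ρ (jw m N) d d (jbb β (N + 1)) (jbb β N) hv ((h.gms_tl hi).valid hd) rsl exl
    (regularOn_poly (fun p => IsPF.coord _) _) (regularOn_poly (fun p => ?_) _) ?_ ?_ ?_ ?_ ?_ ?_
  · unfold exl
    by_cases h : (p.2 : ℕ) < N + 1
    · simp only [dif_pos h]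
      exact IsPF.coord _
    · simp only [dif_neg h]
      exact IsPF.zero
  · rintro z ⟨⟨h1, h2⟩, h3⟩
    have h4 : ∀ j ≤ N, PowerSeries.coeff j (aeval (arc (rsl z)) g) =
        PowerSeries.coeff j (aeval (arc z) g) := by
      refine Pool.Agent.W375.MT.coeff_aeval_congr g N (arc (rsl z)) (arc z) ?_
      intro i k' hk
      rw [Pool.Agent.W375.MT.coeff_arc _ _ _ (by omega),
        Pool.Agent.W375.MT.coeff_arc _ _ _ (by omega)]
      rfl
    refine ⟨h1, fun j hj => ?_⟩
    rw [h4 j (by omega)]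
    exact h2 j hj
  · rintro z ⟨h1, h2⟩
    have h4 : ∀ j ≤ N, PowerSeries.coeff j (aeval (arc (exl z)) g) =
        PowerSeries.coeff j (aeval (arc z) g) := by
      refine Pool.Agent.W375.MT.coeff_aeval_congr g N (arc (exl z)) (arc z) ?_
      intro i k' hk
      rw [Pool.Agent.W375.MT.coeff_arc _ _ _ (by omega),
        Pool.Agent.W375.MT.coeff_arc _ _ _ (by omega)]
      simp only [exl]
      rw [dif_pos (by omega)]
    refine ⟨⟨h1, fun j hj => ?_⟩, ?_⟩
    · rw [h4 j (by omega)]
      exact h2 j hj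
    · intro p hp
      simp only [Fl, Finset.mem_filter, Finset.mem_univ, true_and] at hp
      simp only [exl]
      rw [dif_neg (by omega)]
  · rintro z ⟨-, h3⟩
    funext p
    simp only [exl, rsl]
    split_ifs with h
    · rfl
    · exact (h3 p (by
        have := p.2.2
        simp only [Fl, Finset.mem_filter, Finset.mem_univ, true_and]; omega)).symm
  · rintro z -
    funext p
    simp only [exl, rsl]
    rw [dif_pos p.2.2]
  · rintro z -
    rw [cbase_jbb, cbase_jbb]
    rfl
  · intro l hl z hz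
    rw [hact _ z hz.2]
    funext p
    simp only [dact, rsl, jw]

end Pool.Agent.K6.H7.UE
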