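import Pool.Agent.K6.H7.UE.JetD
import Pool.Agent.K6.H7.UE.BC
import Pool.Agent.Y229.MS.Rel
import Pool.Agent.Y229.MS.Step

set_option autoImplicit false

/-! # The series of `g`, `g + y z`, `g + y z + y' z'` -/

namespace Pool.Agent.K6.H7.UE

open MvPolynomial Pool.Agent.W428.MOT
open Pool.Agent.W375.MG (JetG)
open Pool.Agent.Y229.MS (Tl addyz psum psum_mul rescale_X' rescale_C' elim shn shn_pos)

variable {k : Type} [Field k] {n m N : ℕ} {f : MvPolynomial (Fin n) k}
  {g : MvPolynomial (Fin m) k} {W : Set (Pt k (Fin m))} {β : Fin n → Option (Fin m)}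

section
variable {R : Type} [CommRing R] (M : EMeas f R) (Y : R)

/-- the zeta function of `g` with origins in `W`, over `X_s(f)` -/
noncomputable def zs (g : MvPolynomial (Fin m) k) (W : Set (Pt k (Fin m)))
    (β : Fin n → Option (Fin m)) : PowerSeries R :=
  PowerSeries.mk fun N => if N = 0 then 0 else
    M.χ _ (JetG g W (E1 1) N) (jw m N) N (jbb β N) * Y ^ (m * N)

/-- the tails -/
noncomputable def ph (g : MvPolynomial (Fin m) k) (W : Set (Pt k (Fin m)))
    (β : Fin n → Option (Fin m)) : PowerSeries R :=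
  PowerSeries.mk fun N => if N = 0 then 0 else
    M.χ _ (Tl g W (N + 1) N) (jw m N) 1 (jbb β N) * Y ^ (m * N)

theorem jet_zero (g : MvPolynomial (Fin m) k) (W : Set (Pt k (Fin m))) (N : ℕ) :
    JetG g W (E1 0) N = Tl g W (N + 1) N := by
  rw [Pool.Agent.Y229.MS.tl_succ]
  unfold E1
  rw [map_zero]

theorem level (h : Fam f g W β) (hL : M.L * Y = 1) {i d : ℕ} (hd : 0 < d) :
    ∀ s : ℕ, M.χ _ (Tl g W (i + 1) (i + s)) (jw m (i + s)) d (jbb β (i + s)) *
        Y ^ (m * (i + s)) =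
      M.χ _ (Tl g W (i + 1) i) (jw m i) d (jbb β i) * Y ^ (m * i) := by
  intro s
  induction s with
  | zero => rfl
  | succ s ih =>
    rw [← ih, ← add_assoc, two M h (Nat.succ_pos i) (by omega) hd]
    have h3 : M.L ^ m * Y ^ m = 1 := by rw [← mul_pow, hL, one_pow]
    rw [show m * (i + s + 1) = m + m * (i + s) by ring, pow_add]
    linear_combination (M.χ _ (Tl g W (i + 1) (i + s)) (jw m (i + s)) d (jbb β (i + s)) *
      Y ^ (m * (i + s))) * h3

theorem level' (h : Fam f g W β) (hL : M.L * Y = 1) {i N d d' : ℕ} (hi : i ≤ N) (hd : 0 < d)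
    (hd' : 0 < d') : M.χ _ (Tl g W (i + 1) N) (jw m N) d (jbb β N) * Y ^ (m * N) =
      M.χ _ (Tl g W (i + 1) i) (jw m i) d' (jbb β i) * Y ^ (m * i) := by
  classical
  obtain ⟨s, rfl⟩ := Nat.exists_eq_add_of_le hi
  rw [level M Y h hL hd s, tw M hd hd' (h.gms_tl (Nat.succ_pos i))]

theorem sum_level (h : Fam f g W β) (hL : M.L * Y = 1) (N : ℕ) {d : ℕ} (hd : 0 < d) :
    PowerSeries.coeff N (psum (ph M Y g W β)) =
      (∑ i ∈ Finset.range N, M.χ _ (Tl g W (i + 2) (N + 1)) (jw m (N + 1)) d (jbb β (N + 1))) *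
        Y ^ (m * (N + 1)) := by
  rw [Pool.Agent.Y229.MS.psum, PowerSeries.coeff_mk, Finset.sum_range_succ', Finset.sum_mul]
  have h0 : PowerSeries.coeff 0 (ph M Y g W β) = 0 := by
    rw [ph, PowerSeries.coeff_mk, if_pos rfl]
  rw [h0, add_zero]
  refine Finset.sum_congr rfl fun i hi => ?_
  have hi' := Finset.mem_range.1 hi
  rw [ph, PowerSeries.coeff_mk, if_neg (Nat.succ_ne_zero i),
    level' M Y h hL (i := i + 1) (N := N + 1) (by omega) hd one_pos]

/-- **The relation of the zeta functions.** -/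
theorem rel1 (h : Fam f g W β) (hL : M.L * Y = 1) :
    PowerSeries.rescale M.L (zs M Y (addyz g) (Wo W) (bo β)) =
      PowerSeries.C M.L * zs M Y g W β +
        PowerSeries.C (M.L - 1) * (PowerSeries.X * psum (ph M Y g W β)) := by
  ext N
  rw [PowerSeries.coeff_rescale, map_add, PowerSeries.coeff_C_mul, PowerSeries.coeff_C_mul]
  rcases N with _ | N
  · rw [PowerSeries.coeff_zero_X_mul, zs, zs, PowerSeries.coeff_mk, PowerSeries.coeff_mk,
      if_pos rfl, if_pos rfl]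
    ring
  · have hN1 : 0 < N + 1 := Nat.succ_pos N
    rw [PowerSeries.coeff_succ_X_mul, sum_level M Y h hL N hN1, zs, zs,
      PowerSeries.coeff_mk, PowerSeries.coeff_mk, if_neg (Nat.succ_ne_zero N),
      if_neg (Nat.succ_ne_zero N), one M h 1 hN1, Nat.add_sub_cancel]
    have h4 : M.L ^ (N + 1) * Y ^ (N + 1) = 1 := by rw [← mul_pow, hL, one_pow]
    have h5 : Y ^ ((m + 2) * (N + 1)) = Y ^ (m * (N + 1)) * (Y ^ (N + 1) * Y ^ (N + 1)) := by
      rw [← pow_add, ← pow_add]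
      congr 1
      ring
    rw [h5, pow_succ M.L (N + 1)]
    set A := M.χ _ (JetG g W (E1 1) (N + 1)) (jw m (N + 1)) (N + 1) (jbb β (N + 1))
    set B := ∑ i ∈ Finset.range N, M.χ _ (Tl g W (i + 2) (N + 1)) (jw m (N + 1)) (N + 1)
      (jbb β (N + 1))
    linear_combination ((A * M.L + (M.L - 1) * B) * Y ^ (m * (N + 1)) *
      (M.L ^ (N + 1) * Y ^ (N + 1) + 1)) * h4

/-- **The relation of the tails.** -/
theorem rel2 (h : Fam f g W β) (hL : M.L * Y = 1) :
    PowerSeries.rescale M.L (ph M Y (addyz g) (Wo W) (bo β)) =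
      PowerSeries.C M.L * ph M Y g W β +
        PowerSeries.C (M.L - 1) * (PowerSeries.X * psum (ph M Y g W β)) := by
  classical
  ext N
  rw [PowerSeries.coeff_rescale, map_add, PowerSeries.coeff_C_mul, PowerSeries.coeff_C_mul]
  rcases N with _ | N
  · rw [PowerSeries.coeff_zero_X_mul, ph, ph, PowerSeries.coeff_mk, PowerSeries.coeff_mk,
      if_pos rfl, if_pos rfl]
    ring
  · have hN1 : 0 < N + 1 := Nat.succ_pos N
    rw [PowerSeries.coeff_succ_X_mul, sum_level M Y h hL N hN1, ph, ph,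
      PowerSeries.coeff_mk, PowerSeries.coeff_mk, if_neg (Nat.succ_ne_zero N),
      if_neg (Nat.succ_ne_zero N),
      tw M one_pos hN1 ((h.addyz).gms_tl (Nat.succ_pos (N + 1))),
      tw M one_pos hN1 (h.gms_tl (Nat.succ_pos (N + 1))),
      ← jet_zero, ← jet_zero, one M h 0 hN1, Nat.add_sub_cancel]
    have h4 : M.L ^ (N + 1) * Y ^ (N + 1) = 1 := by rw [← mul_pow, hL, one_pow]
    have h5 : Y ^ ((m + 2) * (N + 1)) = Y ^ (m * (N + 1)) * (Y ^ (N + 1) * Y ^ (N + 1)) := by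
      rw [← pow_add, ← pow_add]
      congr 1
      ring
    rw [h5, pow_succ M.L (N + 1)]
    set A := M.χ _ (JetG g W (E1 0) (N + 1)) (jw m (N + 1)) (N + 1) (jbb β (N + 1))
    set B := ∑ i ∈ Finset.range N, M.χ _ (Tl g W (i + 2) (N + 1)) (jw m (N + 1)) (N + 1)
      (jbb β (N + 1))
    linear_combination ((A * M.L + (M.L - 1) * B) * Y ^ (m * (N + 1)) *
      (M.L ^ (N + 1) * Y ^ (N + 1) + 1)) * h4

/-- **Elimination.** -/
theorem elim' (h : Fam f g W β) (hL : M.L * Y = 1) :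
    (1 - PowerSeries.C Y * PowerSeries.X) * zs M Y g W β =
      PowerSeries.C (Y ^ 3) * ((PowerSeries.C M.L * PowerSeries.C M.L + PowerSeries.C M.L) *
        PowerSeries.rescale M.L ((1 - PowerSeries.C Y * PowerSeries.X) *
          zs M Y (addyz g) (Wo W) (bo β)) -
        PowerSeries.rescale M.L (PowerSeries.rescale M.L
          ((1 - PowerSeries.C Y * PowerSeries.X) *
            zs M Y (addyz (addyz g)) (Wo (Wo W)) (bo (bo β))))) := by
  have r0 := rel1 M Y h hL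
  have r1 := rel1 M Y h.addyz hL
  have r2 := rel2 M Y h hL
  have hps := psum_mul (ph M Y g W β)
  have hps1 := psum_mul (ph M Y (addyz g) (Wo W) (bo β))
  refine elim M.L Y hL _ _ _ (PowerSeries.C (M.L - 1) * (PowerSeries.X * ph M Y g W β))
    (PowerSeries.C (M.L - 1) * (PowerSeries.X * ph M Y (addyz g) (Wo W) (bo β))) ?_ ?_ ?_
  · rw [r0]
    linear_combination (PowerSeries.C (M.L - 1) * PowerSeries.X) * hps
  · rw [r1]
    linear_combination (PowerSeries.C (M.L - 1) * PowerSeries.X) * hps1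
  · rw [map_mul, map_mul, rescale_C', rescale_X', r2]
    rw [map_sub PowerSeries.C M.L 1, map_one]
    linear_combination ((PowerSeries.C M.L - 1) * PowerSeries.C M.L * PowerSeries.X *
      (PowerSeries.C M.L - 1) * PowerSeries.X) * hps

end

section rat

theorem rescale_geo (a b : ℤ) (hb : 0 < b) :
    PowerSeries.rescale ((LuMu f : (MKMu f)ˣ) : MKMu f) (geoMu f a b) = geoMu f (a + b) b := by
  have h1 := congrArg (PowerSeries.rescale ((LuMu f : (MKMu f)ˣ) : MKMu f)) (geoMu_mul f a b hb)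
  have h2 := geoMu_mul f (a + b) b hb
  have h3 : PowerSeries.C (((LuMu f) ^ a : (MKMu f)ˣ) : MKMu f) *
      (PowerSeries.C ((LuMu f : (MKMu f)ˣ) : MKMu f) * PowerSeries.X) ^ b.toNat =
      PowerSeries.C (((LuMu f) ^ (a + b) : (MKMu f)ˣ) : MKMu f) * PowerSeries.X ^ b.toNat := by
    have h4 : (((LuMu f) ^ (a + b) : (MKMu f)ˣ) : MKMu f) =
        (((LuMu f) ^ a : (MKMu f)ˣ) : MKMu f) * ((LuMu f : (MKMu f)ˣ) : MKMu f) ^ b.toNat := by
      rw [← Units.val_pow_eq_pow_val, ← Units.val_mul, ← zpow_natCast, ← zpow_add,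
        Int.toNat_of_nonneg hb.le]
    rw [h4, mul_pow, map_mul, map_pow]
    ring
  rw [map_mul, map_one, map_sub, map_one, map_mul, rescale_C', map_pow, rescale_X', h3] at h1
  calc PowerSeries.rescale ((LuMu f : (MKMu f)ˣ) : MKMu f) (geoMu f a b)
      = ((1 - PowerSeries.C (((LuMu f) ^ (a + b) : (MKMu f)ˣ) : MKMu f) *
          PowerSeries.X ^ b.toNat) * geoMu f (a + b) b) *
            PowerSeries.rescale ((LuMu f : (MKMu f)ˣ) : MKMu f) (geoMu f a b) := by
        rw [h2, one_mul]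
    _ = geoMu f (a + b) b *
        ((1 - PowerSeries.C (((LuMu f) ^ (a + b) : (MKMu f)ˣ) : MKMu f) *
          PowerSeries.X ^ b.toNat) *
          PowerSeries.rescale ((LuMu f : (MKMu f)ˣ) : MKMu f) (geoMu f a b)) := by ring
    _ = geoMu f (a + b) b := by rw [h1, mul_one]

theorem rescale_mem {S : Set (ℤ × ℤ)} (hS : ∀ p ∈ S, 0 < p.2) {z : PowerSeries (MKMu f)}
    (hz : z ∈ ratRingMu f S) :
    PowerSeries.rescale ((LuMu f : (MKMu f)ˣ) : MKMu f) z ∈ ratRingMu f (shn 1 S) := by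
  unfold ratRingMu at hz
  refine Algebra.adjoin_induction (p := fun z _ =>
    PowerSeries.rescale ((LuMu f : (MKMu f)ˣ) : MKMu f) z ∈ ratRingMu f (shn 1 S)) ?_ ?_ ?_ ?_ hz
  · rintro x (hx | ⟨p, hp, rfl⟩)
    · rw [Set.mem_singleton_iff] at hx
      rw [hx, rescale_X']
      exact (ratRingMu f _).mul_mem (C_mem _ _) (X_mem _)
    · rw [rescale_geo _ _ (hS p hp)]
      refine geo_mem (p := (p.1 + p.2, p.2)) ⟨p, hp, ?_⟩
      push_cast
      rw [one_mul]
  · intro r
    rw [PowerSeries.algebraMap_apply, Algebra.algebraMap_self, RingHom.id_apply, rescale_C']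
    exact C_mem _ _
  · intro x y _ _ hx hy
    rw [map_add]
    exact (ratRingMu f _).add_mem hx hy
  · intro x y _ _ hx hy
    rw [map_mul]
    exact (ratRingMu f _).mul_mem hx hy

/-- the factor of the strict transform -/
noncomputable def fstE (f : MvPolynomial (Fin n) k) : PowerSeries (MKMu f) :=
  1 - PowerSeries.C (((LuMu f)⁻¹ : (MKMu f)ˣ) : MKMu f) * PowerSeries.X

/-- **One step, over `X_s(f)`.** -/
theorem step_fam (M : EMeas f (MKMu f)) (hM : M.L = ((LuMu f : (MKMu f)ˣ) : MKMu f))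
    (h : Fam f g W β) {S1 S2 : Set (ℤ × ℤ)} (hS1 : ∀ p ∈ S1, 0 < p.2) (hS2 : ∀ p ∈ S2, 0 < p.2)
    (hz1 : fstE f * zs M (((LuMu f)⁻¹ : (MKMu f)ˣ) : MKMu f) (addyz g) (Wo W) (bo β) ∈
      ratRingMu f S1)
    (hz2 : fstE f * zs M (((LuMu f)⁻¹ : (MKMu f)ˣ) : MKMu f) (addyz (addyz g)) (Wo (Wo W))
      (bo (bo β)) ∈ ratRingMu f S2) :
    fstE f * zs M (((LuMu f)⁻¹ : (MKMu f)ˣ) : MKMu f) g W β ∈
      ratRingMu f (shn 1 S1 ∪ shn 1 (shn 1 S2)) := by
  have hL : M.L * (((LuMu f)⁻¹ : (MKMu f)ˣ) : MKMu f) = 1 := by rw [hM, Units.mul_inv]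
  have key := elim' M (((LuMu f)⁻¹ : (MKMu f)ˣ) : MKMu f) h hL
  unfold fstE at hz1 hz2 ⊢
  rw [key, hM]
  have m1 := rat_mono (f := f) (Set.subset_union_left (s := shn 1 S1) (t := shn 1 (shn 1 S2)))
    (rescale_mem hS1 hz1)
  have m2 := rat_mono (f := f) (Set.subset_union_right (s := shn 1 S1) (t := shn 1 (shn 1 S2)))
    (rescale_mem (shn_pos hS2) (rescale_mem hS2 hz2))
  exact (ratRingMu f _).mul_mem (C_mem _ _) ((ratRingMu f _).sub_mem ((ratRingMu f _).mul_mem
    ((ratRingMu f _).add_mem ((ratRingMu f _).mul_mem (C_mem _ _) (C_mem _ _)) (C_mem _ _)) m1) m2)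

end rat

end Pool.Agent.K6.H7.UE
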