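import Pool.Agent.K6.H7.UE.Jb

set_option autoImplicit false

/-! # One step, and isomorphisms, for the equivariant zeta functions -/

namespace Pool.Agent.K6.H7.UE

open MvPolynomial Pool.Agent.W428.MOT
open Pool.Agent.W375.MG (JetG)
open Pool.Agent.Y229.MS (Tl addyz shn shn_pos)
open Pool.Agent.W63.MEFin (mapEMeas)

variable {k : Type} [Field k] {n m : ℕ} {g : MvPolynomial (Fin m) k} {f : MvPolynomial (Fin n) k}

theorem exists_meas [CharZero k] (f : MvPolynomial (Fin n) k) : ∃ M : EMeas f (MKMu f),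
    M.L = ((LuMu f : (MKMu f)ˣ) : MKMu f) ∧
      ∀ (ι : Type) [Fintype ι] (S : Set (Pt k ι)) (ρ : ι → ℤ) (d : ℕ) (β : Fin n → Option ι)
        (h : Valid f S ρ d β), M.χ ι S ρ d β =
          algebraMap (K0Mu f) (MKMu f) (K0Mu.mk (diagVar h)) := by
  obtain ⟨M₀, hL₀, hM₀⟩ := Pool.Agent.W358.ME.EK0.main k f
  refine ⟨mapEMeas M₀ (algebraMap (K0Mu f) (MKMu f)), ?_, fun ι _ S ρ d β h => ?_⟩
  · change algebraMap (K0Mu f) (MKMu f) M₀.L = _
    rw [hL₀]
    rfl
  · change algebraMap (K0Mu f) (MKMu f) (M₀.χ ι S ρ d β) = _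
    rw [hM₀]

theorem Y_pow (f : MvPolynomial (Fin n) k) (s : ℕ) :
    (((LuMu f)⁻¹ : (MKMu f)ˣ) : MKMu f) ^ s = (((LuMu f) ^ (-(s : ℤ)) : (MKMu f)ˣ) : MKMu f) := by
  rw [zpow_neg, zpow_natCast, ← inv_pow, Units.val_pow_eq_pow_val]

theorem map_fst {θ : MvPolynomial (Fin m) k →ₐ[k] MvPolynomial (Fin n) k} (h : θ g = f) :
    PowerSeries.map (bcM h) (fstE g) = fstE f := by
  unfold fstE
  rw [map_sub, map_one, map_mul, PowerSeries.map_C, PowerSeries.map_X, ← zpow_neg_one,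
    ← zpow_neg_one, bcM_zpow]

/-- isomorphisms -/
theorem map_zeta_equiv (φ : MvPolynomial (Fin m) k ≃ₐ[k] MvPolynomial (Fin n) k)
    (hφ : (φ : MvPolynomial (Fin m) k →ₐ[k] MvPolynomial (Fin n) k) g = f) (hmn : m = n) :
    PowerSeries.map (bcM hφ) (zetaMu g) = zetaMu f := by
  ext N
  rw [PowerSeries.coeff_map, zetaMu, zetaMu, PowerSeries.coeff_mk, PowerSeries.coeff_mk]
  split_ifs with hN
  · rw [map_mul, bcM_algebraMap, bcM_zpow, bc_mk, pull_equiv φ hφ hN, hmn]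
  · rw [map_zero]

theorem map_zeta_kill {θ : MvPolynomial (Fin m) k →ₐ[k] MvPolynomial (Fin n) k}
    {W : Set (Pt k (Fin m))} {β : Fin n → Fin m} (hθ : θ g = f) (h1 : ∀ i, θ (X (β i)) = X i)
    (h2 : ∀ j, (∀ i, β i ≠ j) → θ (X j) = 0)
    (hW : ∀ w, w ∈ W ↔ ∀ j, (∀ i, β i ≠ j) → w j = 0)
    (hF : Fam f g W fun i => some (β i)) (M : EMeas f (MKMu f))
    (hM : ∀ (ι : Type) [Fintype ι] (S : Set (Pt k ι)) (ρ : ι → ℤ) (d : ℕ) (β : Fin n → Option ι)
        (h : Valid f S ρ d β), M.χ ι S ρ d β =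
          algebraMap (K0Mu f) (MKMu f) (K0Mu.mk (diagVar h))) :
    PowerSeries.map (bcM hθ) (zetaMu g) =
      zs M (((LuMu f)⁻¹ : (MKMu f)ˣ) : MKMu f) g W fun i => some (β i) := by
  ext N
  rw [PowerSeries.coeff_map, zetaMu, zs, PowerSeries.coeff_mk, PowerSeries.coeff_mk]
  by_cases hN : N = 0
  · rw [if_pos hN, dif_neg (by omega), map_zero]
  · have hN' : 0 < N := Nat.pos_of_ne_zero hN
    rw [if_neg hN, dif_pos hN', map_mul, bcM_algebraMap, bcM_zpow, bc_mk,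
      pull_kill hθ h1 h2 hW hF hN', Y_pow]
    congr 1
    exact (hM _ _ _ _ _ (hF.valid_jet 1 hN')).symm

theorem fam_self (f : MvPolynomial (Fin n) k) : Fam f f Set.univ some where
  constr := Constr.univ
  base := fun _ _ h => h

theorem zeta_self (M : EMeas f (MKMu f))
    (hM : ∀ (ι : Type) [Fintype ι] (S : Set (Pt k ι)) (ρ : ι → ℤ) (d : ℕ) (β : Fin n → Option ι)
        (h : Valid f S ρ d β), M.χ ι S ρ d β =
          algebraMap (K0Mu f) (MKMu f) (K0Mu.mk (diagVar h))) :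
    zetaMu f = zs M (((LuMu f)⁻¹ : (MKMu f)ˣ) : MKMu f) f Set.univ some := by
  ext N
  rw [zetaMu, zs, PowerSeries.coeff_mk, PowerSeries.coeff_mk]
  by_cases hN : N = 0
  · rw [if_pos hN, dif_neg (by omega)]
  · have hN' : 0 < N := Nat.pos_of_ne_zero hN
    have e : JetG f Set.univ (E1 1) N = JetE f N := by
      ext z
      rw [jetE_iff]
      exact ⟨fun h => h.2, fun h => ⟨trivial, h⟩⟩
    rw [if_neg hN, dif_pos hN', Y_pow, e]
    congr 1
    exact (hM _ _ _ _ _ (jetValid f N hN')).symm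

/-- forget two variables -/
noncomputable def kill (k : Type) [Field k] (n : ℕ) :
    MvPolynomial (Fin (n + 2)) k →ₐ[k] MvPolynomial (Fin n) k :=
  aeval (Fin.addCases (motive := fun _ => MvPolynomial (Fin n) k) X fun _ => 0)

theorem kill_cast (i : Fin n) : kill k n (X (Fin.castAdd 2 i)) = X i := by
  unfold kill
  rw [aeval_X, Fin.addCases_left]

theorem kill_nat (i : Fin 2) : kill k n (X (Fin.natAdd n i)) = 0 := by
  unfold kill
  rw [aeval_X, Fin.addCases_right]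

theorem kill_addyz (f : MvPolynomial (Fin n) k) : kill k n (addyz f) = f := by
  unfold addyz
  rw [map_add, map_mul, kill_nat, zero_mul, add_zero]
  unfold kill
  rw [aeval_rename]
  have : ((Fin.addCases (motive := fun _ => MvPolynomial (Fin n) k) X fun _ => 0) ∘
      Fin.castAdd 2 : Fin n → MvPolynomial (Fin n) k) = X := by
    funext i
    simp
  rw [this, aeval_X_left_apply]

theorem not_range (j : Fin (n + 2)) (hj : ∀ i : Fin n, Fin.castAdd 2 i ≠ j) :
    ∃ b : Fin 2, j = Fin.natAdd n b := by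
  refine Fin.addCases (motive := fun j => (∀ i : Fin n, Fin.castAdd 2 i ≠ j) →
    ∃ b : Fin 2, j = Fin.natAdd n b) (fun i h => absurd rfl (h i)) (fun b _ => ⟨b, rfl⟩) j hj

theorem fin2 (b : Fin 2) : b = 0 ∨ b = 1 := by
  rcases b with ⟨b, hb⟩
  have : b = 0 ∨ b = 1 := by omega
  rcases this with rfl | rfl
  · left; rfl
  · right; rfl

theorem Wo_iff {l : ℕ} (β : Fin n → Fin l) (W : Set (Pt k (Fin l)))
    (hW : ∀ w, w ∈ W ↔ ∀ j, (∀ i, β i ≠ j) → w j = 0) (w : Pt k (Fin (l + 2))) :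
    w ∈ Wo W ↔ ∀ j, (∀ i, Fin.castAdd 2 (β i) ≠ j) → w j = 0 := by
  unfold Wo
  rw [Set.mem_ofPred_eq, hW]
  constructor
  · rintro ⟨h1, h2, h3⟩ j
    refine Fin.addCases (fun a hj => ?_) (fun b _ => ?_) j
    · exact h1 a fun i hi => hj i (by rw [hi])
    · rcases fin2 b with rfl | rfl
      · exact h2
      · exact h3
  · intro h
    refine ⟨fun a ha => h _ fun i hi => ha i (Fin.castAdd_injective _ _ hi), ?_, ?_⟩
    · exact h _ fun i hi => Pool.Agent.Y366.MS.castAdd_ne _ _ hi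
    · exact h _ fun i hi => Pool.Agent.Y366.MS.castAdd_ne _ _ hi

/-- **Isomorphisms.** -/
theorem isoE {S : Set (ℤ × ℤ)} (hS : ∀ p ∈ S, 0 < p.2)
    (hz : fstE g * zetaMu g ∈ ratRingMu g S) (hmn : m = n)
    (φ : MvPolynomial (Fin m) k ≃ₐ[k] MvPolynomial (Fin n) k) (hφ : φ g = f) :
    fstE f * zetaMu f ∈ ratRingMu f S := by
  have hφ' : (φ : MvPolynomial (Fin m) k →ₐ[k] MvPolynomial (Fin n) k) g = f := hφ
  have h1 := map_mem hφ' hS hz
  rw [map_mul, map_fst, map_zeta_equiv φ hφ' hmn] at h1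
  exact h1

/-- **One step.** -/
theorem stepE [CharZero k] {S1 S2 : Set (ℤ × ℤ)} (hS1 : ∀ p ∈ S1, 0 < p.2)
    (hS2 : ∀ p ∈ S2, 0 < p.2)
    (hz1 : fstE (addyz f) * zetaMu (addyz f) ∈ ratRingMu (addyz f) S1)
    (hz2 : fstE (addyz (addyz f)) * zetaMu (addyz (addyz f)) ∈ ratRingMu (addyz (addyz f)) S2) :
    fstE f * zetaMu f ∈ ratRingMu f (shn 1 S1 ∪ shn 1 (shn 1 S2)) := by
  obtain ⟨M, hML, hM⟩ := exists_meas f
  have hF := fam_self f
  have w0 : ∀ w : Pt k (Fin n), w ∈ (Set.univ : Set (Pt k (Fin n))) ↔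
      ∀ j, (∀ i : Fin n, i ≠ j) → w j = 0 :=
    fun w => ⟨fun _ j hj => absurd rfl (hj j), fun _ => trivial⟩
  have w1 := Wo_iff (k := k) (fun i : Fin n => i) Set.univ w0
  have w2 := Wo_iff (k := k) (fun i : Fin n => Fin.castAdd 2 i) (Wo Set.univ) w1
  have θ1 := kill_addyz f
  have b1 := map_mem θ1 hS1 hz1
  rw [map_mul, map_fst, map_zeta_kill (β := fun i : Fin n => Fin.castAdd 2 i) θ1
    (fun i => kill_cast i) (fun j hj => by
      obtain ⟨b, rfl⟩ := not_range j hj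
      exact kill_nat b) w1 hF.addyz M hM] at b1
  have θ2 : ((kill k n).comp (kill k (n + 2))) (addyz (addyz f)) = f := by
    rw [AlgHom.comp_apply, kill_addyz, kill_addyz]
  have b2 := map_mem θ2 hS2 hz2
  rw [map_mul, map_fst, map_zeta_kill (β := fun i : Fin n => Fin.castAdd 2 (Fin.castAdd 2 i)) θ2
    (fun i => by rw [AlgHom.comp_apply, kill_cast, kill_cast]) (fun j hj => by
      rw [AlgHom.comp_apply]
      by_cases h : ∀ i : Fin (n + 2), Fin.castAdd 2 i ≠ j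
      · obtain ⟨b, rfl⟩ := not_range j h
        rw [kill_nat, map_zero]
      · push Not at h
        obtain ⟨i, rfl⟩ := h
        rw [kill_cast]
        obtain ⟨b, rfl⟩ := not_range i fun a ha => hj a (by rw [ha])
        exact kill_nat b) w2 hF.addyz.addyz M hM] at b2
  rw [zeta_self M hM]
  exact step_fam M hML hF hS1 hS2 b1 b2

end Pool.Agent.K6.H7.UE
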