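import Pool.Agent.W428.MOT.EStm
import Pool.Agent.W578.ME.Etw

set_option autoImplicit false

/-! # Classes with an action of the multiplicative group -/

namespace Pool.Agent.K6.H7.UE

open MvPolynomial Pool.Agent.W428.MOT

variable {k : Type} [Field k] {n : ℕ} {f : MvPolynomial (Fin n) k} {R : Type} [CommRing R]

theorem ne_zero_of_pow {l : AlgebraicClosure k} {d : ℕ} (hd : 0 < d) (hl : l ^ d = 1) :
    l ≠ 0 := by
  intro h
  rw [h, zero_pow hd.ne'] at hl
  exact zero_ne_one hl

/-- identical actions -/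
theorem chi_congr (M : EMeas f R) {ι : Type} [Fintype ι] {S : Set (Pt k ι)} {ρ ρ' : ι → ℤ} {d : ℕ}
    {β : Fin n → Option ι} (h : Valid f S ρ d β) (h' : Valid f S ρ' d β)
    (he : ∀ l : AlgebraicClosure k, l ^ d = 1 → ∀ z ∈ S, dact ρ l z = dact ρ' l z) :
    M.χ ι S ρ d β = M.χ ι S ρ' d β := by
  refine M.iso S S ρ ρ' d d β β h h' (fun z => z) (fun z => z)
    (regularOn_poly (fun i => IsPF.coord i) _) (regularOn_poly (fun i => IsPF.coord i) _)
    (fun z hz => hz) (fun z hz => hz) (fun _ _ => rfl) (fun _ _ => rfl) (fun _ _ => rfl) ?_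
  intro l hl z hz
  exact he _ (by rw [← pow_mul]; exact hl) z hz

/-- a set with an action of the multiplicative group -/
structure GmS {ι : Type} (f : MvPolynomial (Fin n) k) (S : Set (Pt k ι)) (ρ : ι → ℤ)
    (β : Fin n → Option ι) : Prop where
  constr : Constr S
  stable : ∀ l : AlgebraicClosure k, l ≠ 0 → ∀ z ∈ S, dact ρ l z ∈ S
  base : ∀ z ∈ S, aeval (cbase β z) f = 0
  inv : ∀ i j, β i = some j → ρ j = 0

theorem GmS.valid {ι : Type} {S : Set (Pt k ι)} {ρ : ι → ℤ} {β : Fin n → Option ι}
    (h : GmS f S ρ β) {d : ℕ} (hd : 0 < d) : Valid f S ρ d β where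
  constr := h.constr
  pos := hd
  stable := fun l hl z hz => h.stable l (ne_zero_of_pow hd hl) z hz
  base := h.base
  inv := h.inv

theorem tw_aux (M : EMeas f R) {ι : Type} [Fintype ι] [DecidableEq ι] (β : Fin n → Option ι)
    {d d' : ℕ} (hd : 0 < d) (hd' : 0 < d') (A : Finset ι) :
    ∀ (S : Set (Pt k ι)) (ρ : ι → ℤ), GmS f S ρ β →
      (∀ z ∈ S, ∀ i, i ∉ A → ρ i ≠ 0 → z i ≠ 0) → M.χ ι S ρ d β = M.χ ι S ρ d' β := by
  induction A using Finset.induction_on with
  | empty =>
    intro S ρ hS hz
    refine Pool.Agent.W578.ME.etw M S ρ ρ d d' β (hS.valid hd) (hS.valid hd') ?_ ?_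
    · intro z hzS i hi
      refine hz z hzS i (Finset.notMem_empty i) fun h0 => hi ?_
      rw [h0, mul_zero, mul_zero]
    · intro s hs z hzS
      have h1 : dact (fun i => (d' : ℤ) * ρ i - d * ρ i) s z =
          dact ρ (s ^ ((d' : ℤ) - d)) z := by
        funext i
        simp only [dact]
        rw [← zpow_mul, sub_mul]
      rw [h1]
      exact hS.stable _ (zpow_ne_zero _ hs) z hzS
  | insert a A ha ih =>
    intro S ρ hS hz
    have c0 : Constr {z : Pt k ι | z a = 0} := Constr.eqz (IsPF.coord a)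
    have e : S = (S ∩ {z | z a = 0}) ∪ (S ∩ {z | z a ≠ 0}) := by
      ext z
      simp only [Set.mem_union, Set.mem_inter_iff, Set.mem_ofPred_eq]
      tauto
    have hdis : Disjoint (S ∩ {z | z a = 0}) (S ∩ {z : Pt k ι | z a ≠ 0}) := by
      rw [Set.disjoint_left]
      rintro z ⟨-, h1⟩ ⟨-, h2⟩
      exact h2 h1
    have g0 : GmS f (S ∩ {z | z a = 0}) ρ β :=
      { constr := hS.constr.inter c0
        stable := fun l hl z h => ⟨hS.stable l hl z h.1, by
          change l ^ ρ a * z a = 0
          rw [show z a = 0 from h.2, mul_zero]⟩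
        base := fun z h => hS.base z h.1
        inv := hS.inv }
    have g1 : GmS f (S ∩ {z | z a ≠ 0}) ρ β :=
      { constr := hS.constr.inter c0.not
        stable := fun l hl z h => ⟨hS.stable l hl z h.1, by
          change l ^ ρ a * z a ≠ 0
          exact mul_ne_zero (zpow_ne_zero _ hl) h.2⟩
        base := fun z h => hS.base z h.1
        inv := hS.inv }
    set ρ' : ι → ℤ := Function.update ρ a 0 with hρ'
    have hact : ∀ (l : AlgebraicClosure k) (z : Pt k ι), z a = 0 →
        dact ρ l z = dact ρ' l z := by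
      intro l z h
      funext i
      simp only [dact]
      by_cases hi : i = a
      · rw [hi, h, mul_zero, mul_zero]
      · rw [hρ', Function.update_of_ne hi]
    have g2 : GmS f (S ∩ {z | z a = 0}) ρ' β :=
      { constr := g0.constr
        stable := fun l hl z h => by
          rw [← hact l z h.2]
          exact g0.stable l hl z h
        base := g0.base
        inv := fun i j h => by
          by_cases hj : j = a
          · rw [hj, hρ', Function.update_self]
          · rw [hρ', Function.update_of_ne hj]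
            exact hS.inv i j h }
    have k1 : M.χ ι (S ∩ {z | z a ≠ 0}) ρ d β = M.χ ι (S ∩ {z | z a ≠ 0}) ρ d' β := by
      refine ih _ ρ g1 fun z h i hi h0 => ?_
      by_cases hia : i = a
      · rw [hia]
        exact h.2
      · exact hz z h.1 i (fun h' => (Finset.mem_insert.1 h').elim hia hi) h0
    have k2 : M.χ ι (S ∩ {z | z a = 0}) ρ' d β = M.χ ι (S ∩ {z | z a = 0}) ρ' d' β := by
      refine ih _ ρ' g2 fun z h i hi h0 => ?_
      by_cases hia : i = a
      · rw [hia, hρ', Function.update_self] at h0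
        exact absurd rfl h0
      · rw [hρ', Function.update_of_ne hia] at h0
        exact hz z h.1 i (fun h' => (Finset.mem_insert.1 h').elim hia hi) h0
    have k3 : M.χ ι (S ∩ {z | z a = 0}) ρ d β = M.χ ι (S ∩ {z | z a = 0}) ρ d' β := by
      rw [chi_congr M (g0.valid hd) (g2.valid hd) fun l _ z h => hact l z h.2, k2,
        ← chi_congr M (g0.valid hd') (g2.valid hd') fun l _ z h => hact l z h.2]
    conv_lhs => rw [e]
    conv_rhs => rw [e]
    rw [M.add _ _ _ _ _ (g0.valid hd) (g1.valid hd) hdis,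
      M.add _ _ _ _ _ (g0.valid hd') (g1.valid hd') hdis, k1, k3]

/-- **The class of a set with an action of the multiplicative group does not depend on the order of
the roots of unity.** -/
theorem tw (M : EMeas f R) {ι : Type} [Fintype ι] [DecidableEq ι] {β : Fin n → Option ι}
    {d d' : ℕ} (hd : 0 < d) (hd' : 0 < d') {S : Set (Pt k ι)} {ρ : ι → ℤ} (h : GmS f S ρ β) :
    M.χ ι S ρ d β = M.χ ι S ρ d' β :=
  tw_aux M β hd hd' Finset.univ S ρ h fun _ _ i hi => absurd (Finset.mem_univ i) hi

end Pool.Agent.K6.H7.UE
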